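import Pool.Agent.Lib.LargeSieve.Additive

/-!
Multiplicative large sieve for primitive Dirichlet characters.
-/

set_option autoImplicit false

namespace Pool.Agent.Lib.LargeSieve

open Finset Real

lemma sum_normSq_of_orth {ι κ : Type*} [DecidableEq κ] (s : Finset ι) (t : Finset κ)
    (K : ι → κ → ℂ) (c : κ → ℝ) (y : κ → ℂ)
    (h : ∀ j ∈ t, ∀ k ∈ t, ∑ i ∈ s, K i j * (starRingEnd ℂ) (K i k) = if j = k then (c j : ℂ) else 0) :
    ∑ i ∈ s, ‖∑ j ∈ t, K i j * y j‖ ^ 2 = ∑ j ∈ t, c j * ‖y j‖ ^ 2 := by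
  apply Complex.ofReal_injective
  rw [Complex.ofReal_sum, Complex.ofReal_sum]
  simp_rw [normSq_sum_eq]
  rw [sum_comm]
  refine sum_congr rfl fun j hj => ?_
  rw [sum_comm]
  have : ∀ k ∈ t, ∑ i ∈ s, K i j * y j * (starRingEnd ℂ) (K i k * y k)
      = if j = k then (c j : ℂ) * (y j * (starRingEnd ℂ) (y k)) else 0 := fun k hk => by
    have := h j hj k hk
    calc _ = (∑ i ∈ s, K i j * (starRingEnd ℂ) (K i k)) * (y j * (starRingEnd ℂ) (y k)) := by
          rw [sum_mul]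
          refine sum_congr rfl fun i _ => ?_
          rw [map_mul]; ring
      _ = _ := by rw [this]; split_ifs <;> simp
  rw [sum_congr rfl this, sum_ite_eq, if_pos hj, Complex.mul_conj, Complex.normSq_eq_norm_sq]
  push_cast; ring

lemma sum_zmod_eq_sum_range {M : Type*} [AddCommMonoid M] (f : ℕ) [NeZero f] (g : ZMod f → M) :
    ∑ x, g x = ∑ h ∈ range f, g (h : ZMod f) := by
  refine sum_nbij' (fun x => x.val) (fun h => (h : ZMod f)) ?_ ?_ ?_ ?_ ?_
  · intro x _; exact mem_range.2 (ZMod.val_lt x)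
  · intro h _; exact mem_univ _
  · intro x _; exact ZMod.natCast_zmod_val x
  · intro h hh; exact ZMod.val_cast_of_lt (mem_range.1 hh)
  · intro x _; rw [ZMod.natCast_zmod_val]

lemma stdAddChar_nat (f : ℕ) [NeZero f] (n h : ℕ) :
    ZMod.stdAddChar ((n : ZMod f) * (h : ZMod f)) = ee (n * ((h : ℝ) / f)) := by
  have := ZMod.stdAddChar_coe (N := f) ((n * h : ℕ) : ℤ)
  rw [Int.cast_natCast, Nat.cast_mul] at this
  rw [this]
  unfold ee
  congr 1
  push_cast; ring

lemma conj_stdAddChar (f : ℕ) [NeZero f] (x : ZMod f) :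
    (starRingEnd ℂ) (ZMod.stdAddChar x) = ZMod.stdAddChar (-x) := by
  rw [AddChar.map_neg_eq_conj]

open Classical in
lemma norm_char_eq {f : ℕ} (χ : DirichletCharacter ℂ f) (a : ZMod f) :
    ‖χ a‖ = if IsUnit a then 1 else 0 := by
  split_ifs with h
  · simpa using χ.unit_norm_eq_one h.unit
  · rw [χ.map_nonunit h, norm_zero]

lemma sum_stdAddChar_orth (f : ℕ) [NeZero f] (j k : ZMod f) :
    ∑ a : ZMod f, ZMod.stdAddChar (a * j) * (starRingEnd ℂ) (ZMod.stdAddChar (a * k))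
      = if j = k then ((f : ℝ) : ℂ) else 0 := by
  have := AddChar.sum_mulShift (j - k) (ZMod.isPrimitive_stdAddChar f)
  calc _ = ∑ x : ZMod f, ZMod.stdAddChar (x * (j - k)) := by
        refine sum_congr rfl fun x _ => ?_
        rw [conj_stdAddChar, ← AddChar.map_add_eq_mul]
        congr 1; ring
    _ = _ := by
        rw [this]
        by_cases h : j = k
        · simp [h]
        · simp [h, sub_eq_zero]

lemma norm_gaussSum_sq {f : ℕ} [NeZero f] {χ : DirichletCharacter ℂ f} (hχ : χ.IsPrimitive) :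
    ‖gaussSum χ ZMod.stdAddChar‖ ^ 2 = f := by
  have h1 := sum_normSq_of_orth (univ : Finset (ZMod f)) (univ : Finset (ZMod f))
    (fun a x => ZMod.stdAddChar (a * x)) (fun _ => (f : ℝ)) (fun x => χ x)
    (fun j _ k _ => sum_stdAddChar_orth f j k)
  have h2 : ∀ a : ZMod f, ∑ x, ZMod.stdAddChar (a * x) * χ x
      = χ⁻¹ a * gaussSum χ ZMod.stdAddChar := fun a => by
    rw [← gaussSum_mulShift_of_isPrimitive _ hχ, gaussSum]
    refine sum_congr rfl fun x _ => ?_
    rw [AddChar.mulShift_apply, mul_comm]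
  have h4 : ∀ a : ZMod f, ‖χ⁻¹ a‖ = ‖χ a‖ := fun a => by rw [norm_char_eq, norm_char_eq]
  have h5 : ∑ a : ZMod f, ‖∑ x, ZMod.stdAddChar (a * x) * χ x‖ ^ 2
      = ‖gaussSum χ ZMod.stdAddChar‖ ^ 2 * ∑ a : ZMod f, ‖χ a‖ ^ 2 := by
    rw [mul_sum]
    refine sum_congr rfl fun a _ => ?_
    rw [h2, norm_mul, h4]; ring
  rw [h5, ← mul_sum] at h1
  have h3 : (0 : ℝ) < ∑ x : ZMod f, ‖χ x‖ ^ 2 :=
    sum_pos' (fun _ _ => by positivity) ⟨1, mem_univ _, by simp⟩
  exact mul_right_cancel₀ h3.ne' h1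

open Classical in
lemma sum_char_mul_conj {f : ℕ} [NeZero f] (j k : ZMod f) :
    ∑ χ : DirichletCharacter ℂ f, χ j * (starRingEnd ℂ) (χ k)
      = if j = k then ((if IsUnit j then (f.totient : ℝ) else 0 : ℝ) : ℂ) else 0 := by
  classical
  by_cases hk : IsUnit k
  · have := DirichletCharacter.sum_char_inv_mul_char_eq ℂ hk j
    have e : ∀ χ : DirichletCharacter ℂ f, χ j * (starRingEnd ℂ) (χ k) = χ k⁻¹ * χ j := fun χ => by
      rw [mul_comm]; congr 1
      have h1 : (starRingEnd ℂ) (χ k) = χ⁻¹ k := χ.star_apply' k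
      rw [h1, MulChar.inv_apply_eq_inv']
      have h2 : χ k⁻¹ * χ k = 1 := by
        rw [← map_mul, ZMod.inv_mul_of_unit k hk, map_one]
      exact (eq_inv_of_mul_eq_one_left h2).symm
    simp_rw [e, this]
    by_cases hjk : j = k
    · subst hjk; simp [hk]
    · rw [if_neg hjk, if_neg (Ne.symm hjk)]
  · have e : ∀ χ : DirichletCharacter ℂ f, χ j * (starRingEnd ℂ) (χ k) = 0 := fun χ => by
      rw [χ.map_nonunit hk]; simp
    simp_rw [e]
    by_cases hjk : j = k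
    · subst hjk; simp [hk]
    · simp [hjk]

open Classical in
lemma sum_primitive_le (f : ℕ) (hf : 0 < f) (N : ℕ) (a : ℕ → ℂ) :
    ∑ χ : DirichletCharacter ℂ f with χ.IsPrimitive, ‖∑ n ∈ range N, a n * χ n‖ ^ 2
      ≤ ∑ h ∈ (range f).filter (fun h => Nat.Coprime h f),
        ‖∑ n ∈ range N, a n * ee (n * ((h : ℝ) / f))‖ ^ 2 := by
  have : NeZero f := ⟨hf.ne'⟩
  have hf' : (0 : ℝ) < f := by exact_mod_cast hf
  set S : ZMod f → ℂ := fun h => ∑ n ∈ range N, a n * ZMod.stdAddChar ((n : ZMod f) * h) with hS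
  have h1 : ∀ χ : DirichletCharacter ℂ f, χ.IsPrimitive →
      f * ‖∑ n ∈ range N, a n * χ n‖ ^ 2 = ‖∑ h, χ⁻¹ h * S h‖ ^ 2 := fun χ hχ => by
    have hχ' : (χ⁻¹).IsPrimitive := by
      rw [DirichletCharacter.isPrimitive_def, DirichletCharacter.conductor_inv]; exact hχ
    rw [← norm_gaussSum_sq hχ', ← mul_pow, ← norm_mul]
    congr 2
    simp only [hS, mul_sum]
    rw [sum_comm]
    refine sum_congr rfl fun n _ => ?_
    have := gaussSum_mulShift_of_isPrimitive ZMod.stdAddChar hχ' (n : ZMod f)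
    rw [inv_inv] at this
    calc _ = a n * (χ n * gaussSum χ⁻¹ ZMod.stdAddChar) := by ring
      _ = _ := by
        rw [← this, gaussSum, mul_sum]
        refine sum_congr rfl fun x _ => ?_
        rw [AddChar.mulShift_apply]; ring
  have h2 : ∑ χ : DirichletCharacter ℂ f, ‖∑ h, χ⁻¹ h * S h‖ ^ 2
      = ∑ χ : DirichletCharacter ℂ f, ‖∑ h, χ h * S h‖ ^ 2 :=
    Equiv.sum_comp (Equiv.inv _) (fun χ : DirichletCharacter ℂ f => ‖∑ h, χ h * S h‖ ^ 2)
  have h3 := sum_normSq_of_orth (univ : Finset (DirichletCharacter ℂ f)) (univ : Finset (ZMod f))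
    (fun χ h => χ h) (fun j => if IsUnit j then (f.totient : ℝ) else 0) S
    (fun j _ k _ => sum_char_mul_conj j k)
  have h4 : ∑ j : ZMod f, (if IsUnit j then (f.totient : ℝ) else 0) * ‖S j‖ ^ 2
      ≤ f * ∑ h ∈ (range f).filter (fun h => Nat.Coprime h f),
        ‖∑ n ∈ range N, a n * ee (n * ((h : ℝ) / f))‖ ^ 2 := by
    rw [sum_zmod_eq_sum_range, sum_filter, mul_sum]
    refine sum_le_sum fun h _ => ?_
    simp only [ZMod.isUnit_iff_coprime, hS, stdAddChar_nat]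
    split_ifs
    · have : (f.totient : ℝ) ≤ f := by exact_mod_cast Nat.totient_le f
      gcongr
    · simp
  refine le_of_mul_le_mul_left ?_ hf'
  calc _ = ∑ χ : DirichletCharacter ℂ f with χ.IsPrimitive, ‖∑ h, χ⁻¹ h * S h‖ ^ 2 := by
        rw [mul_sum]
        exact sum_congr rfl fun χ hχ => h1 χ (mem_filter.1 hχ).2
    _ ≤ ∑ χ : DirichletCharacter ℂ f, ‖∑ h, χ⁻¹ h * S h‖ ^ 2 :=
        sum_le_sum_of_subset_of_nonneg (filter_subset _ _) fun _ _ _ => by positivity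
    _ = _ := h2
    _ = _ := h3
    _ ≤ _ := h4

open Classical in
/-- the multiplicative large sieve -/
theorem largeSieve_mult (F N : ℕ) (a : ℕ → ℂ) :
    ∑ f ∈ Icc 1 F, ∑ χ : DirichletCharacter ℂ f with χ.IsPrimitive,
        ‖∑ n ∈ range N, a n * χ n‖ ^ 2
      ≤ (N + (F ^ 2 : ℕ) * HH (F ^ 2)) * ∑ n ∈ range N, ‖a n‖ ^ 2 :=
  (sum_le_sum fun f hf => sum_primitive_le f (mem_Icc.1 hf).1 N a).trans (largeSieve_farey F N a)

end Pool.Agent.Lib.LargeSieve
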