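import Pool.Agent.Lib.LargeSieve.Bilinear

/-!
Vaughan identity and a mean value theorem of Bombieri-Vinogradov type for moduli all of whose
divisors `> 1` are large (no Siegel-Walfisz input is needed for such moduli).
-/

set_option autoImplicit false

namespace Pool.Agent.Lib.LargeSieve

open Finset Real ArithmeticFunction

lemma abs_kap_le (q a n : ℕ) : |kap q a n| ≤ 1 := by
  have h : 1 / (q.totient : ℝ) ≤ 1 := by
    rcases Nat.eq_zero_or_pos q.totient with h | h
    · simp [h]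
    · rw [div_le_one (by exact_mod_cast h)]; exact_mod_cast h
  have h0 : 0 ≤ 1 / (q.totient : ℝ) := by positivity
  unfold kap
  rw [abs_le]
  split_ifs <;> constructor <;> linarith

lemma class_sum_le {q : ℕ} [NeZero q] (F : ℕ → ℝ) (hF : Monotone F) (hF0 : ∀ m, 0 ≤ F m) (X : ℕ)
    (b b' : ZMod q) :
    ∑ m ∈ (Icc 1 X).filter (fun m : ℕ => (m : ZMod q) = b), F m
      ≤ ∑ m ∈ (Icc 1 X).filter (fun m : ℕ => (m : ZMod q) = b'), F m + F X := by
  set δ := (b' - b).val with hδ
  have hδq : δ < q := ZMod.val_lt _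
  rw [← sum_filter_add_sum_filter_not ((Icc 1 X).filter fun m : ℕ => (m : ZMod q) = b)
    (fun m => m + δ ≤ X)]
  apply add_le_add
  · refine sum_le_of_injOn _ _ _ _ (fun m => m + δ) (fun m _ m' _ h => by simpa using h) ?_
      (fun x _ => hF0 x) (fun m _ => hF (Nat.le_add_right _ _))
    intro m hm
    simp only [mem_filter, mem_Icc] at hm ⊢
    refine ⟨⟨by omega, hm.2⟩, ?_⟩
    push_cast
    rw [hm.1.2, hδ, ZMod.natCast_zmod_val]; ring
  · have hc : (((Icc 1 X).filter fun m : ℕ => (m : ZMod q) = b).filter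
        (fun m => ¬ m + δ ≤ X)).card ≤ 1 := by
      rw [card_le_one]
      intro m hm m' hm'
      simp only [mem_filter, mem_Icc] at hm hm'
      have h1 : m ≡ m' [MOD q] := (ZMod.natCast_eq_natCast_iff m m' q).1 (hm.1.2.trans hm'.1.2.symm)
      refine h1.eq_of_abs_lt ?_
      rw [abs_lt]; constructor <;> omega
    refine (sum_le_card_nsmul _ _ (F X) fun m hm => hF ?_).trans ?_
    · simp only [mem_filter, mem_Icc] at hm; exact hm.1.1.2
    · rw [nsmul_eq_mul]
      exact mul_le_of_le_one_left (hF0 X) (by exact_mod_cast hc)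

/-- Type I estimate -/
lemma typeI_le {q a : ℕ} (hq : 0 < q) (ha : Nat.Coprime a q) (F : ℕ → ℝ) (hF : Monotone F)
    (hF0 : ∀ m, 0 ≤ F m) (d X : ℕ) : |∑ m ∈ Icc 1 X, F m * kap q a (d * m)| ≤ F X := by
  have : NeZero q := ⟨hq.ne'⟩
  by_cases hd : Nat.Coprime d q
  swap
  · rw [sum_eq_zero, abs_zero]
    · exact hF0 X
    intro m _
    have h1 : ¬ Nat.Coprime (d * m) q := fun h => hd (Nat.Coprime.coprime_mul_right h)
    have h2 : ¬ d * m ≡ a [MOD q] := fun h => h1 (by rw [Nat.Coprime, h.gcd_eq]; exact ha)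
    simp [kap, h1, h2]
  have hφ : (0 : ℝ) < q.totient := by exact_mod_cast Nat.totient_pos.2 hq
  set T : ZMod q → ℝ := fun b => ∑ m ∈ (Icc 1 X).filter (fun m : ℕ => (m : ZMod q) = b), F m with hT
  set b0 : ZMod q := ((ZMod.unitOfCoprime d hd)⁻¹ : (ZMod q)ˣ) * (a : ZMod q) with hb0
  have e1 : ∑ m ∈ Icc 1 X, F m * (if d * m ≡ a [MOD q] then 1 else 0) = T b0 := by
    simp only [hT]
    rw [sum_filter]
    refine sum_congr rfl fun m _ => ?_
    have : d * m ≡ a [MOD q] ↔ (m : ZMod q) = b0 := by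
      rw [← ZMod.natCast_eq_natCast_iff, hb0, Units.eq_inv_mul_iff_mul_eq, ZMod.coe_unitOfCoprime,
        Nat.cast_mul]
    simp only [this]
    split_ifs <;> simp
  have e2 : ∑ m ∈ Icc 1 X, F m * (if Nat.Coprime (d * m) q then 1 / (q.totient : ℝ) else 0)
      = 1 / (q.totient : ℝ) * ∑ u : (ZMod q)ˣ, T u := by
    simp only [hT, sum_filter]
    rw [sum_comm, mul_sum]
    refine sum_congr rfl fun m _ => ?_
    by_cases hm : Nat.Coprime m q
    · rw [if_pos (Nat.Coprime.mul_left hd hm), sum_eq_single (ZMod.unitOfCoprime m hm)]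
      · simp [mul_comm]
      · intro u _ hu
        rw [if_neg]
        intro h
        exact hu (Units.ext (by rw [ZMod.coe_unitOfCoprime, h]))
      · simp
    · rw [if_neg (fun h => hm (Nat.Coprime.coprime_mul_left h)), sum_eq_zero]
      · simp
      intro u _
      rw [if_neg]
      intro h
      exact hm ((ZMod.isUnit_iff_coprime m q).1 (h ▸ u.isUnit))
  have e3 : ∑ m ∈ Icc 1 X, F m * kap q a (d * m)
      = 1 / (q.totient : ℝ) * ∑ u : (ZMod q)ˣ, (T b0 - T u) := by
    unfold kap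
    simp_rw [mul_sub]
    rw [sum_sub_distrib, e1, e2, sum_sub_distrib, sum_const, card_univ, ZMod.card_units_eq_totient,
      nsmul_eq_mul]
    field_simp
  rw [e3, abs_mul, abs_of_pos (by positivity), one_div, inv_mul_le_iff₀ hφ]
  refine (abs_sum_le_sum_abs _ _).trans ?_
  refine (sum_le_card_nsmul _ _ (F X) fun u _ => ?_).trans ?_
  · have h1 := class_sum_le F hF hF0 X b0 u
    have h2 := class_sum_le F hF hF0 X u b0
    rw [abs_le]
    simp only [hT]
    constructor <;> linarith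
  · rw [card_univ, ZMod.card_units_eq_totient, nsmul_eq_mul]

lemma sum_mul_weight (f g : ArithmeticFunction ℝ) (κ : ℕ → ℝ) (x : ℕ) :
    ∑ n ∈ Icc 1 x, (f * g) n * κ n
      = ∑ d ∈ Icc 1 x, ∑ m ∈ Icc 1 (x / d), f d * (g m * κ (d * m)) := by
  simp_rw [mul_apply, sum_mul]
  rw [sum_sigma', sum_sigma']
  refine sum_nbij' (fun y => ⟨y.2.1, y.2.2⟩) (fun y => ⟨y.1 * y.2, (y.1, y.2)⟩) ?_ ?_ ?_ ?_ ?_
  · rintro ⟨n, d, m⟩ h
    simp only [mem_sigma, mem_Icc, Nat.mem_divisorsAntidiagonal] at h ⊢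
    obtain ⟨⟨h1, h2⟩, rfl, -⟩ := h
    have hd : 0 < d := Nat.pos_of_mul_pos_right h1
    have hm : 0 < m := Nat.pos_of_mul_pos_left h1
    exact ⟨⟨hd, (Nat.le_mul_of_pos_right _ hm).trans h2⟩, hm,
      (Nat.le_div_iff_mul_le hd).2 (by rwa [mul_comm])⟩
  · rintro ⟨d, m⟩ h
    simp only [mem_sigma, mem_Icc, Nat.mem_divisorsAntidiagonal] at h ⊢
    obtain ⟨⟨h1, h2⟩, h3, h4⟩ := h
    have := Nat.mul_pos h1 h3
    exact ⟨⟨this, by rw [mul_comm]; exact (Nat.le_div_iff_mul_le h1).1 h4⟩, trivial, this.ne'⟩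
  · rintro ⟨n, d, m⟩ h
    simp only [mem_sigma, mem_Icc, Nat.mem_divisorsAntidiagonal] at h ⊢
    obtain ⟨-, rfl, -⟩ := h
    rfl
  · rintro ⟨d, m⟩ _; rfl
  · rintro ⟨n, d, m⟩ h
    simp only [mem_sigma, mem_Icc, Nat.mem_divisorsAntidiagonal] at h ⊢
    obtain ⟨-, rfl, -⟩ := h
    ring

/-- part of an arithmetic function supported on `[1, U]` -/
def lowPart (f : ArithmeticFunction ℝ) (U : ℕ) : ArithmeticFunction ℝ :=
  ⟨fun n => if n ≤ U then f n else 0, by simp⟩

/-- part of an arithmetic function supported above `U` -/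
def highPart (f : ArithmeticFunction ℝ) (U : ℕ) : ArithmeticFunction ℝ :=
  ⟨fun n => if n ≤ U then 0 else f n, by simp⟩

lemma lowPart_apply (f : ArithmeticFunction ℝ) (U n : ℕ) :
    lowPart f U n = if n ≤ U then f n else 0 := rfl

lemma highPart_apply (f : ArithmeticFunction ℝ) (U n : ℕ) :
    highPart f U n = if n ≤ U then 0 else f n := rfl

lemma low_add_high (f : ArithmeticFunction ℝ) (U : ℕ) : lowPart f U + highPart f U = f := by
  ext n
  rw [ArithmeticFunction.add_apply, lowPart_apply, highPart_apply]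
  split_ifs <;> simp

/-- real Moebius function -/
noncomputable def muR : ArithmeticFunction ℝ := (moebius : ArithmeticFunction ℝ)

/-- real zeta function -/
noncomputable def zetaR : ArithmeticFunction ℝ := (zeta : ArithmeticFunction ℝ)

lemma abs_muR_le (n : ℕ) : |muR n| ≤ 1 := by
  unfold muR
  rw [intCoe_apply]
  exact_mod_cast abs_moebius_le_one

lemma zetaR_apply {n : ℕ} (hn : n ≠ 0) : zetaR n = 1 := by
  unfold zetaR
  rw [natCoe_apply, zeta_apply_ne hn, Nat.cast_one]

theorem vaughan (U V : ℕ) :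
    vonMangoldt + lowPart muR U * (lowPart vonMangoldt V * zetaR)
      = lowPart vonMangoldt V + lowPart muR U * ArithmeticFunction.log
        + highPart muR U * (highPart vonMangoldt V * zetaR) := by
  have h1 : vonMangoldt * zetaR = ArithmeticFunction.log := vonMangoldt_mul_zeta
  have h2 : muR * zetaR = 1 := coe_moebius_mul_coe_zeta
  have h3 := low_add_high muR U
  have h4 := low_add_high vonMangoldt V
  generalize lowPart muR U = a at *
  generalize highPart muR U = b at *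
  generalize lowPart vonMangoldt V = c at *
  generalize highPart vonMangoldt V = d at *
  rw [← h1, ← h4]
  rw [← h3] at h2
  linear_combination (-d) * h2

lemma sum_abs_lowPart_le (f : ArithmeticFunction ℝ) (U X : ℕ) (C : ℝ) (hC : 0 ≤ C)
    (h : ∀ n ≤ U, |f n| ≤ C) : ∑ n ∈ Icc 1 X, |lowPart f U n| ≤ U * C := by
  calc _ = ∑ n ∈ Icc 1 X with n ≤ U, |f n| := by
        rw [sum_filter]
        refine sum_congr rfl fun n _ => ?_
        rw [lowPart_apply]; split_ifs <;> simp
    _ ≤ ((Icc 1 X).filter (fun n => n ≤ U)).card • C :=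
        sum_le_card_nsmul _ _ _ fun n hn => h n (mem_filter.1 hn).2
    _ ≤ U * C := by
        rw [nsmul_eq_mul]
        apply mul_le_mul_of_nonneg_right _ hC
        have : (Icc 1 X).filter (fun n => n ≤ U) ⊆ Icc 1 U := fun n hn => by
          simp only [mem_filter, mem_Icc] at hn ⊢; exact ⟨hn.1.1, hn.2⟩
        have := card_le_card this
        rw [Nat.card_Icc] at this
        exact_mod_cast (by omega : _ ≤ U)

lemma high_zeta_nonneg (V n : ℕ) : 0 ≤ (highPart vonMangoldt V * zetaR) n := by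
  unfold zetaR
  rw [coe_mul_zeta_apply]
  refine sum_nonneg fun d _ => ?_
  rw [highPart_apply]; split_ifs
  · exact le_rfl
  · exact vonMangoldt_nonneg

lemma high_zeta_le (V n : ℕ) : (highPart vonMangoldt V * zetaR) n ≤ Real.log n := by
  unfold zetaR
  rw [coe_mul_zeta_apply, ← vonMangoldt_sum]
  refine sum_le_sum fun d _ => ?_
  rw [highPart_apply]; split_ifs
  · exact vonMangoldt_nonneg
  · exact le_rfl

lemma high_zeta_eq_zero {V n : ℕ} (h : n ≤ V) : (highPart vonMangoldt V * zetaR) n = 0 := by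
  unfold zetaR
  rw [coe_mul_zeta_apply]
  refine sum_eq_zero fun d hd => ?_
  rw [highPart_apply, if_pos ((Nat.divisor_le hd).trans h)]

lemma log_nat_mono : Monotone fun m : ℕ => Real.log m := by
  intro a b h
  rcases Nat.eq_zero_or_pos a with rfl | ha
  · simpa using Real.log_natCast_nonneg b
  · exact Real.log_le_log (by exact_mod_cast ha) (by exact_mod_cast h)

/-- the three Type I pieces -/
lemma typeI_pieces {q a : ℕ} (hq : 0 < q) (ha : Nat.Coprime a q) (x U : ℕ) (hU : U ≤ x) (hU1 : 1 ≤ U) :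
    |∑ n ∈ Icc 1 x, vonMangoldt n * kap q a n|
      ≤ 3 * (U : ℝ) ^ 2 * Real.log x +
        |∑ n ∈ Icc 1 x, (highPart muR U * (highPart vonMangoldt U * zetaR)) n * kap q a n| := by
  have hL : 0 ≤ Real.log x := Real.log_natCast_nonneg x
  have hU1' : (1 : ℝ) ≤ U := by exact_mod_cast hU1
  have hΛ : ∀ X, ∑ n ∈ Icc 1 X, |lowPart vonMangoldt U n| ≤ U * Real.log x := fun X =>
    sum_abs_lowPart_le _ U X _ hL fun n hn => by
      rw [abs_of_nonneg vonMangoldt_nonneg]
      exact vonMangoldt_le_log.trans (log_nat_mono (hn.trans hU))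
  have hμ : ∑ n ∈ Icc 1 x, |lowPart muR U n| ≤ U * 1 :=
    sum_abs_lowPart_le _ U x _ zero_le_one fun n _ => abs_muR_le n
  have e : ∑ n ∈ Icc 1 x, vonMangoldt n * kap q a n
      = ∑ n ∈ Icc 1 x, lowPart vonMangoldt U n * kap q a n
        + ∑ n ∈ Icc 1 x, (lowPart muR U * ArithmeticFunction.log) n * kap q a n
        - ∑ n ∈ Icc 1 x, (lowPart muR U * (lowPart vonMangoldt U * zetaR)) n * kap q a n
        + ∑ n ∈ Icc 1 x, (highPart muR U * (highPart vonMangoldt U * zetaR)) n * kap q a n := by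
    rw [← sum_add_distrib, ← sum_sub_distrib, ← sum_add_distrib]
    refine sum_congr rfl fun n _ => ?_
    have := congrArg (fun f : ArithmeticFunction ℝ => f n) (vaughan U U)
    simp only [ArithmeticFunction.add_apply] at this
    linear_combination kap q a n * this
  have b1 : |∑ n ∈ Icc 1 x, lowPart vonMangoldt U n * kap q a n| ≤ U * Real.log x := by
    refine (abs_sum_le_sum_abs _ _).trans (le_trans (sum_le_sum fun n _ => ?_) (hΛ x))
    rw [abs_mul]
    exact mul_le_of_le_one_right (abs_nonneg _) (abs_kap_le _ _ _)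
  have b2 : |∑ n ∈ Icc 1 x, (lowPart muR U * ArithmeticFunction.log) n * kap q a n|
      ≤ U * Real.log x := by
    rw [sum_mul_weight]
    refine (abs_sum_le_sum_abs _ _).trans ?_
    calc _ ≤ ∑ d ∈ Icc 1 x, |lowPart muR U d| * Real.log x := by
          refine sum_le_sum fun d _ => ?_
          rw [← mul_sum, abs_mul]
          refine mul_le_mul_of_nonneg_left ?_ (abs_nonneg _)
          exact (typeI_le hq ha (fun m => Real.log m) log_nat_mono
            (fun m => Real.log_natCast_nonneg m) d (x / d)).trans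
            (log_nat_mono (Nat.div_le_self _ _))
      _ ≤ _ := by rw [← sum_mul]; exact mul_le_mul_of_nonneg_right (by linarith) hL
  have b3 : |∑ n ∈ Icc 1 x, (lowPart muR U * (lowPart vonMangoldt U * zetaR)) n * kap q a n|
      ≤ U * (U * Real.log x) := by
    rw [sum_mul_weight]
    refine (abs_sum_le_sum_abs _ _).trans ?_
    calc _ ≤ ∑ d ∈ Icc 1 x, |lowPart muR U d| * (U * Real.log x) := by
          refine sum_le_sum fun d _ => ?_
          rw [← mul_sum, abs_mul]
          refine mul_le_mul_of_nonneg_left ?_ (abs_nonneg _)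
          rw [sum_mul_weight _ _ (fun m => kap q a (d * m))]
          refine (abs_sum_le_sum_abs _ _).trans (le_trans (sum_le_sum fun e _ => ?_) (hΛ (x / d)))
          rw [← mul_sum, abs_mul]
          refine mul_le_of_le_one_right (abs_nonneg _) ?_
          have := typeI_le hq ha (fun _ => 1) monotone_const (fun _ => zero_le_one) (d * e)
            (x / d / e)
          refine le_of_eq_of_le (congrArg _ (sum_congr rfl fun m hm => ?_)) this
          rw [zetaR_apply (by have := (mem_Icc.1 hm).1; omega), mul_assoc]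
      _ ≤ _ := by rw [← sum_mul]; exact mul_le_mul_of_nonneg_right (by linarith) (by positivity)
  rw [e]
  have b4 : (U : ℝ) * Real.log x ≤ U * (U * Real.log x) := by
    apply mul_le_mul_of_nonneg_left _ (by positivity)
    exact le_mul_of_one_le_left hL hU1'
  refine (abs_add_le _ _).trans (add_le_add ?_ le_rfl)
  refine (abs_sub _ _).trans ?_
  have := abs_add_le (∑ n ∈ Icc 1 x, lowPart vonMangoldt U n * kap q a n)
    (∑ n ∈ Icc 1 x, (lowPart muR U * ArithmeticFunction.log) n * kap q a n)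
  nlinarith

/-- splitting the Type II sum into `w`-adic scales -/
lemma typeII_split (w J : ℕ) (hw : 2 ≤ w) (α β : ArithmeticFunction ℝ)
    (hα : ∀ m ≤ w ^ 6, α m = 0) (hβ : ∀ n ≤ w ^ 6, β n = 0) (κ : ℕ → ℝ) :
    ∑ n ∈ Icc 1 (w ^ J), (α * β) n * κ n
      = ∑ j ∈ Icc 6 (J - 7), ∑ m ∈ range (w ^ (j + 1)), ∑ n ∈ range (w ^ (J - j) + 1),
          if n ≤ min (w ^ J / m) (w ^ (J - j)) then
            (if Nat.log w m = j then α m else 0) * β n * κ (m * n) else 0 := by
  rw [sum_mul_weight]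
  set inner : ℕ → ℝ := fun m => ∑ n ∈ Icc 1 (w ^ J / m), α m * (β n * κ (m * n)) with hinner
  have hw1 : 1 < w := by omega
  have h1 : ∀ j ∈ Icc 6 (J - 7), ∑ m ∈ range (w ^ (j + 1)), ∑ n ∈ range (w ^ (J - j) + 1),
        (if n ≤ min (w ^ J / m) (w ^ (J - j)) then
          (if Nat.log w m = j then α m else 0) * β n * κ (m * n) else 0)
      = ∑ m ∈ Icc 1 (w ^ J) with Nat.log w m = j, inner m := by
    intro j hj
    rw [mem_Icc] at hj
    have t1 : ∀ m ∈ range (w ^ (j + 1)), ∑ n ∈ range (w ^ (J - j) + 1),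
        (if n ≤ min (w ^ J / m) (w ^ (J - j)) then
          (if Nat.log w m = j then α m else 0) * β n * κ (m * n) else 0)
        = if Nat.log w m = j then inner m else 0 := by
      intro m _
      split_ifs with h
      · have hm0 : m ≠ 0 := by rintro rfl; simp at h; omega
        have hle : w ^ J / m ≤ w ^ (J - j) := by
          have : w ^ j ≤ m := h ▸ Nat.pow_log_le_self w hm0
          calc w ^ J / m ≤ w ^ J / w ^ j := Nat.div_le_div_left this (by positivity)
            _ = _ := Nat.pow_div (by omega) (by omega)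
        rw [min_eq_left hle, ← sum_filter]
        simp only [hinner]
        symm
        refine (sum_subset ?_ ?_).trans (sum_congr rfl fun n _ => by ring)
        · intro n hn
          simp only [mem_Icc, mem_filter, mem_range] at hn ⊢
          omega
        · intro n hn hn'
          simp only [mem_Icc, mem_filter, mem_range] at hn hn'
          have : n = 0 := by omega
          simp [this]
      · simp
    rw [sum_congr rfl t1, ← sum_filter]
    refine sum_congr ?_ fun _ _ => rfl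
    ext m
    simp only [mem_filter, mem_range, mem_Icc, and_congr_left_iff]
    intro h
    have hm0 : m ≠ 0 := by rintro rfl; simp at h; omega
    have h2 : m < w ^ (j + 1) := h ▸ Nat.lt_pow_succ_log_self hw1 m
    have h3 : w ^ (j + 1) ≤ w ^ J := Nat.pow_le_pow_right (by omega) (by omega)
    exact ⟨fun _ => ⟨Nat.pos_of_ne_zero hm0, by omega⟩, fun _ => h2⟩
  rw [sum_congr rfl h1, sum_fiberwise_eq_sum_filter]
  symm
  refine sum_subset (filter_subset _ _) fun m hm hm' => ?_
  simp only [mem_filter, mem_Icc, not_and, not_le] at hm hm'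
  have hm0 : m ≠ 0 := by omega
  by_cases h6 : 6 ≤ Nat.log w m
  · have h7 := hm' hm h6
    refine sum_eq_zero fun n hn => ?_
    rw [hβ n, zero_mul, mul_zero]
    refine (mem_Icc.1 hn).2.trans ?_
    have h8 : w ^ Nat.log w m ≤ m := Nat.pow_log_le_self w hm0
    calc w ^ J / m ≤ w ^ J / w ^ Nat.log w m := Nat.div_le_div_left h8 (by positivity)
      _ ≤ w ^ 6 := by
        apply Nat.div_le_of_le_mul
        rw [← pow_add]
        exact Nat.pow_le_pow_right (by omega) (by omega)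
  · refine sum_eq_zero fun n _ => ?_
    rw [hα m, zero_mul]
    exact (Nat.lt_pow_succ_log_self hw1 m).le.trans (Nat.pow_le_pow_right (by omega) (by omega))

lemma scale_ineq (W L M N A B Lam : ℝ) (J i j : ℕ) (hW : 1 ≤ W) (hL : 1 ≤ L) (hi : 2 ≤ i)
    (hj : 5 ≤ j) (hjJ : j + 6 ≤ J) (hiJ : 2 * i + 7 ≤ J) (hM : M ≤ W ^ (j + 1))
    (hN0 : 0 ≤ N) (hN : N ≤ 2 * W ^ (J - j)) (hA0 : 0 ≤ A) (hA : A ≤ M) (hB0 : 0 ≤ B)
    (hB : B ≤ N * L ^ 2) (hLam0 : 0 ≤ Lam) (hLam : Lam ≤ L) :
    ((M + W ^ (2 * i + 2) * Lam) * A) * ((N + W ^ (2 * i + 2) * Lam) * B)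
      ≤ (W ^ i * (4 * L ^ 2 * W ^ (J - 1))) ^ 2 := by
  have hW0 : 0 ≤ W := by linarith
  have hL0 : 0 ≤ L := by linarith
  have a1 : M + W ^ (2 * i + 2) * Lam ≤ L * (W ^ (j + 1) + W ^ (2 * i + 2)) := by
    have : W ^ (j + 1) ≤ L * W ^ (j + 1) := le_mul_of_one_le_left (by positivity) hL
    have : W ^ (2 * i + 2) * Lam ≤ W ^ (2 * i + 2) * L := by gcongr
    nlinarith
  have a2 : N + W ^ (2 * i + 2) * Lam ≤ 2 * L * (W ^ (J - j) + W ^ (2 * i + 2)) := by
    have : W ^ (J - j) ≤ L * W ^ (J - j) := le_mul_of_one_le_left (by positivity) hL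
    have : W ^ (2 * i + 2) * Lam ≤ W ^ (2 * i + 2) * L := by gcongr
    have : 0 ≤ W ^ (2 * i + 2) * L := by positivity
    nlinarith
  have a3 : A ≤ W ^ (j + 1) := hA.trans hM
  have a4 : B ≤ 2 * W ^ (J - j) * L ^ 2 := hB.trans (by gcongr)
  have a5 : (W ^ (j + 1) + W ^ (2 * i + 2)) * (W ^ (J - j) + W ^ (2 * i + 2))
      ≤ 4 * W ^ (J - 3 + 2 * i) := by
    have p1 : W ^ (j + 1) * W ^ (J - j) ≤ W ^ (J - 3 + 2 * i) := by
      rw [← pow_add]; exact pow_le_pow_right₀ hW (by omega)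
    have p2 : W ^ (j + 1) * W ^ (2 * i + 2) ≤ W ^ (J - 3 + 2 * i) := by
      rw [← pow_add]; exact pow_le_pow_right₀ hW (by omega)
    have p3 : W ^ (2 * i + 2) * W ^ (J - j) ≤ W ^ (J - 3 + 2 * i) := by
      rw [← pow_add]; exact pow_le_pow_right₀ hW (by omega)
    have p4 : W ^ (2 * i + 2) * W ^ (2 * i + 2) ≤ W ^ (J - 3 + 2 * i) := by
      rw [← pow_add]; exact pow_le_pow_right₀ hW (by omega)
    nlinarith
  have a6 : W ^ (j + 1) * W ^ (J - j) * W ^ (J - 3 + 2 * i) = (W ^ i * W ^ (J - 1)) ^ 2 := by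
    rw [← pow_add, ← pow_add, ← pow_add, ← pow_mul]
    congr 1; omega
  calc _ ≤ (L * (W ^ (j + 1) + W ^ (2 * i + 2)) * W ^ (j + 1)) *
        (2 * L * (W ^ (J - j) + W ^ (2 * i + 2)) * (2 * W ^ (J - j) * L ^ 2)) := by gcongr
    _ = 4 * L ^ 4 * (W ^ (j + 1) * W ^ (J - j)) *
        ((W ^ (j + 1) + W ^ (2 * i + 2)) * (W ^ (J - j) + W ^ (2 * i + 2))) := by ring
    _ ≤ 4 * L ^ 4 * (W ^ (j + 1) * W ^ (J - j)) * (4 * W ^ (J - 3 + 2 * i)) := by gcongr
    _ = 16 * L ^ 4 * (W ^ (j + 1) * W ^ (J - j) * W ^ (J - 3 + 2 * i)) := by ring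
    _ = _ := by rw [a6]; ring

/-- Mean value theorem for primes in progressions to moduli `q i < w^E` whose divisors `> 1` are
all at least `w^2`, up to `x = w^J` with `J ≥ 2E + 5`. -/
theorem bv_lite {ι : Type*} (I : Finset ι) (q a : ι → ℕ) (hinj : Set.InjOn q I) (w E J : ℕ)
    (hw : 2 ≤ w) (hq0 : ∀ i ∈ I, 0 < q i) (hq1 : ∀ i ∈ I, q i < w ^ E)
    (hq2 : ∀ i ∈ I, q i ≤ 2 * (q i).totient) (hq3 : ∀ i ∈ I, ∀ f, f ∣ q i → 1 < f → w ^ 2 ≤ f)
    (ha : ∀ i ∈ I, Nat.Coprime (a i) (q i)) (hJ1 : 2 * E + 5 ≤ J) (hJ2 : E + 13 ≤ J) :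
    ∑ i ∈ I, |∑ n ∈ Icc 1 (w ^ J), vonMangoldt n * kap (q i) (a i) n|
      ≤ 20 * (J : ℝ) ^ 2 * (1 + Real.log (w ^ J : ℕ)) ^ 4 * (w : ℝ) ^ (J - 1) := by
  set L : ℝ := 1 + Real.log (w ^ J : ℕ) with hL
  have hlog := Real.log_natCast_nonneg (w ^ J)
  have hL1 : 1 ≤ L := by linarith
  have hW : (1 : ℝ) ≤ w := by exact_mod_cast (by omega : 1 ≤ w)
  have hHH : ∀ n, n ≤ w ^ J → HH n ≤ L := fun n hn => (HH_mono hn).trans (HH_le _)
  have hcard : (I.card : ℝ) ≤ (w : ℝ) ^ E := by
    have := card_le_card_of_injOn q (fun i hi => mem_coe.2 (mem_range.2 (hq1 i hi))) hinj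
    rw [card_range] at this
    exact_mod_cast this
  set α := highPart muR (w ^ 6) with hα
  set β := highPart vonMangoldt (w ^ 6) * zetaR with hβ
  have s1 := fun i (hi : i ∈ I) => typeI_pieces (hq0 i hi) (ha i hi) (w ^ J) (w ^ 6)
    (Nat.pow_le_pow_right (by omega) (by omega)) (Nat.one_le_pow _ _ (by omega))
  have s2 : ∀ j ∈ Icc 6 (J - 7), ∑ i ∈ I, |∑ m ∈ range (w ^ (j + 1)), ∑ n ∈ range (w ^ (J - j) + 1),
          if n ≤ min (w ^ J / m) (w ^ (J - j)) then
            (if Nat.log w m = j then α m else 0) * β n * kap (q i) (a i) (m * n) else 0|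
      ≤ 16 * J * L ^ 4 * (w : ℝ) ^ (J - 1) := by
    intro j hj
    rw [mem_Icc] at hj
    have hNx : 2 * (w ^ (J - j) + 1) ≤ w ^ J := by
      have h1 : 1 ≤ w ^ (J - j) := Nat.one_le_pow _ _ (by omega)
      have h2 : 2 ^ 2 ≤ w ^ 2 := Nat.pow_le_pow_left hw 2
      have h3 : w ^ 2 * w ^ (J - j) ≤ w ^ J := by
        rw [← pow_add]; exact Nat.pow_le_pow_right (by omega) (by omega)
      nlinarith
    refine (typeII_le I q a hinj w E hw hq0 hq1 hq2 hq3 ha (w ^ (j + 1)) (w ^ (J - j) + 1)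
      (by positivity) (fun m => if Nat.log w m = j then α m else 0) β
      (fun m => min (w ^ J / m) (w ^ (J - j))) (fun m => Nat.lt_succ_of_le (min_le_right _ _))
      (4 * L ^ 2 * (w : ℝ) ^ (J - 1)) (by positivity) fun i hi => ?_).trans ?_
    · rw [mem_Ico] at hi
      refine scale_ineq w L _ _ _ _ _ J i j hW hL1 hi.1 (by omega) (by omega) (by omega)
        (by push_cast; exact le_rfl) (by positivity) ?_
        (sum_nonneg fun _ _ => by positivity) ?_ (sum_nonneg fun _ _ => by positivity) ?_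
        (HH_nonneg _) (hHH _ (Nat.pow_le_pow_right (by omega) (by omega)))
      · have : (1 : ℝ) ≤ (w : ℝ) ^ (J - j) := one_le_pow₀ hW
        push_cast; linarith
      · refine (sum_le_card_nsmul _ _ 1 fun m _ => ?_).trans (by simp)
        rw [sq_le_one_iff_abs_le_one]
        split_ifs
        · rw [hα, highPart_apply]; split_ifs
          · simp
          · exact abs_muR_le m
        · simp
      · refine (sum_le_card_nsmul _ _ (L ^ 2) fun n hn => ?_).trans (by simp)
        refine pow_le_pow_left₀ (high_zeta_nonneg _ _) ((high_zeta_le _ _).trans ?_) 2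
        have : Real.log n ≤ Real.log (w ^ J : ℕ) :=
          log_nat_mono (by have := mem_range.1 hn; omega)
        linarith
    · have b1 := hHH _ hNx
      have b2 := hHH (w ^ E) (Nat.pow_le_pow_right (by omega) (by omega))
      have b3 : (E : ℝ) ≤ J := by exact_mod_cast (by omega : E ≤ J)
      have b4 := HH_nonneg (w ^ E)
      calc _ ≤ (L + L) * (2 * L * (J * (4 * L ^ 2 * (w : ℝ) ^ (J - 1)))) := by gcongr
        _ = _ := by ring
  have s3 : ∑ i ∈ I, |∑ n ∈ Icc 1 (w ^ J), (α * β) n * kap (q i) (a i) n|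
      ≤ J * (16 * J * L ^ 4 * (w : ℝ) ^ (J - 1)) := by
    calc _ ≤ ∑ i ∈ I, ∑ j ∈ Icc 6 (J - 7),
          |∑ m ∈ range (w ^ (j + 1)), ∑ n ∈ range (w ^ (J - j) + 1),
          if n ≤ min (w ^ J / m) (w ^ (J - j)) then
            (if Nat.log w m = j then α m else 0) * β n * kap (q i) (a i) (m * n) else 0| := by
          refine sum_le_sum fun i _ => ?_
          rw [typeII_split w J hw α β (fun m hm => by rw [hα, highPart_apply, if_pos hm])
            (fun n hn => high_zeta_eq_zero hn)]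
          exact abs_sum_le_sum_abs _ _
      _ ≤ _ := by
          rw [sum_comm]
          refine (sum_le_card_nsmul _ _ _ s2).trans ?_
          rw [nsmul_eq_mul, Nat.card_Icc]
          apply mul_le_mul_of_nonneg_right _ (by positivity)
          exact_mod_cast (by omega : J - 7 + 1 - 6 ≤ J)
  refine (sum_le_sum s1).trans ?_
  rw [sum_add_distrib, sum_const, nsmul_eq_mul]
  have s4 : (I.card : ℝ) * (3 * ((w ^ 6 : ℕ) : ℝ) ^ 2 * Real.log (w ^ J : ℕ))
      ≤ 3 * L ^ 4 * (w : ℝ) ^ (J - 1) := by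
    have t1 : (w : ℝ) ^ E * ((w : ℝ) ^ 6) ^ 2 ≤ (w : ℝ) ^ (J - 1) := by
      rw [← pow_mul, ← pow_add]; exact pow_le_pow_right₀ hW (by omega)
    have t2 : Real.log (w ^ J : ℕ) ≤ L ^ 4 :=
      le_trans (by linarith) (le_self_pow₀ hL1 (by norm_num))
    calc _ ≤ (w : ℝ) ^ E * (3 * ((w ^ 6 : ℕ) : ℝ) ^ 2 * L ^ 4) := by gcongr
      _ = 3 * L ^ 4 * ((w : ℝ) ^ E * ((w : ℝ) ^ 6) ^ 2) := by push_cast; ring
      _ ≤ _ := by gcongr
  have hJ : (1 : ℝ) ≤ (J : ℝ) ^ 2 := one_le_pow₀ (by exact_mod_cast (by omega : 1 ≤ J))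
  have s5 : 0 ≤ L ^ 4 * (w : ℝ) ^ (J - 1) := by positivity
  nlinarith

end Pool.Agent.Lib.LargeSieve
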