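import Mathlib

/-!
Additive large sieve inequality (with a harmless logarithmic loss), proved by duality.
-/

set_option autoImplicit false

namespace Pool.Agent.Lib.LargeSieve

open Finset Real

/-- `ee x = exp (2 π i x)`. -/
noncomputable def ee (x : ℝ) : ℂ := Complex.exp (Complex.I * ((2 * π * x : ℝ) : ℂ))

/-- distance to the nearest integer -/
noncomputable def dZ (x : ℝ) : ℝ := |x - round x|

/-- real harmonic number -/
noncomputable def HH (n : ℕ) : ℝ := ∑ j ∈ Icc 1 n, (1 : ℝ) / j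

lemma HH_nonneg (n : ℕ) : 0 ≤ HH n := sum_nonneg fun _ _ => by positivity

lemma HH_eq_harmonic (n : ℕ) : HH n = (harmonic n : ℝ) := by
  unfold HH
  rw [harmonic_eq_sum_Icc]
  push_cast
  simp

lemma HH_le (n : ℕ) : HH n ≤ 1 + Real.log n := by
  rw [HH_eq_harmonic]; exact harmonic_le_one_add_log n

lemma log_le_HH (n : ℕ) : Real.log n ≤ HH n := by
  rw [HH_eq_harmonic]
  refine le_trans ?_ (log_add_one_le_harmonic n)
  rcases Nat.eq_zero_or_pos n with rfl | hn
  · simp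
  · apply Real.log_le_log (by exact_mod_cast hn)
    push_cast; linarith

lemma HH_mono {m n : ℕ} (h : m ≤ n) : HH m ≤ HH n :=
  sum_le_sum_of_subset_of_nonneg (Icc_subset_Icc_right h) fun _ _ _ => by positivity

lemma one_le_HH {n : ℕ} (h : 1 ≤ n) : 1 ≤ HH n := by
  have := HH_mono h
  simpa [HH] using this

lemma ee_add (x y : ℝ) : ee (x + y) = ee x * ee y := by
  unfold ee
  rw [← Complex.exp_add]; congr 1; push_cast; ring

@[simp] lemma ee_zero : ee 0 = 1 := by simp [ee]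

@[simp] lemma norm_ee (x : ℝ) : ‖ee x‖ = 1 := by
  unfold ee
  rw [mul_comm]; exact Complex.norm_exp_ofReal_mul_I _

lemma ee_intCast (m : ℤ) : ee m = 1 := by
  unfold ee
  have := Complex.exp_int_mul_two_pi_mul_I m
  rw [← this]; congr 1; push_cast; ring

lemma ee_natCast (m : ℕ) : ee m = 1 := by
  have := ee_intCast m
  simpa using this

lemma conj_ee (x : ℝ) : (starRingEnd ℂ) (ee x) = ee (-x) := by
  unfold ee
  rw [← Complex.exp_conj]; congr 1
  simp only [map_mul, Complex.conj_I, Complex.conj_ofReal]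
  push_cast; ring

lemma ee_nat_mul (n : ℕ) (x : ℝ) : ee (n * x) = ee x ^ n := by
  unfold ee
  rw [← Complex.exp_nat_mul]; congr 1; push_cast; ring

lemma ee_add_int (x : ℝ) (m : ℤ) : ee (x + m) = ee x := by
  rw [ee_add, ee_intCast, mul_one]

lemma dZ_nonneg (x : ℝ) : 0 ≤ dZ x := abs_nonneg _

lemma dZ_le (x : ℝ) (m : ℤ) : dZ x ≤ |x - m| := round_le x m

lemma dZ_le_half (x : ℝ) : dZ x ≤ 1 / 2 := abs_sub_round x

lemma dZ_neg (x : ℝ) : dZ (-x) = dZ x := by
  apply le_antisymm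
  · have := dZ_le (-x) (-round x)
    refine this.trans (le_of_eq ?_)
    unfold dZ
    rw [← abs_neg]; congr 1; push_cast; ring
  · have := dZ_le x (-round (-x))
    refine this.trans (le_of_eq ?_)
    unfold dZ
    rw [← abs_neg]; congr 1; push_cast; ring

lemma four_dZ_le (x : ℝ) : 4 * dZ x ≤ ‖ee x - 1‖ := by
  have h1 : ee x = ee (x - round x) := by
    have := ee_add_int (x - round x) (round x)
    rw [← this]; congr 1; ring
  rw [h1]
  unfold ee
  rw [Complex.norm_exp_I_mul_ofReal_sub_one]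
  set t := x - round x with ht
  have ht2 : |t| ≤ 1 / 2 := abs_sub_round x
  have h2 : |π * t| ≤ π / 2 := by
    rw [abs_mul, abs_of_pos Real.pi_pos]
    nlinarith [Real.pi_pos]
  have h3 := Real.mul_abs_le_abs_sin h2
  have h4 : 2 * π * t / 2 = π * t := by ring
  rw [h4, Real.norm_eq_abs, abs_mul, abs_two]
  rw [abs_mul, abs_of_pos Real.pi_pos] at h3
  have h5 : 2 / π * (π * |t|) = 2 * |t| := by field_simp
  unfold dZ
  rw [← ht]
  linarith

lemma norm_sum_ee_le (N : ℕ) (x : ℝ) (hx : 0 < dZ x) :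
    ‖∑ n ∈ range N, ee (n * x)‖ ≤ 1 / (2 * dZ x) := by
  have h4 := four_dZ_le x
  have hne : ee x - 1 ≠ 0 := by
    intro h; rw [h, norm_zero] at h4; linarith
  have hne' : ee x ≠ 1 := fun h => hne (by rw [h, sub_self])
  simp_rw [ee_nat_mul]
  rw [geom_sum_eq hne', norm_div]
  have h2 : ‖ee x ^ N - 1‖ ≤ 2 := by
    refine (norm_sub_le _ _).trans ?_
    rw [norm_pow, norm_ee]; norm_num
  rw [div_le_div_iff₀ (by linarith) (by linarith)]
  nlinarith

lemma norm_sum_ee_le_card (N : ℕ) (x : ℝ) : ‖∑ n ∈ range N, ee (n * x)‖ ≤ N := by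
  refine (norm_sum_le _ _).trans ?_
  simp

/-- points of `[1/D, 1]` that are `1/D`-separated -/
lemma sum_inv_le_of_spaced {ι : Type*} (s : Finset ι) (t : ι → ℝ) (D : ℕ) (hD : 0 < D)
    (h1 : ∀ j ∈ s, 1 / (D : ℝ) ≤ t j) (h2 : ∀ j ∈ s, t j ≤ 1)
    (h3 : ∀ j ∈ s, ∀ k ∈ s, j ≠ k → 1 / (D : ℝ) ≤ |t j - t k|) :
    ∑ j ∈ s, 1 / t j ≤ D * HH D := by
  classical
  have hD' : (0 : ℝ) < D := by exact_mod_cast hD
  set m : ι → ℕ := fun j => ⌊(D : ℝ) * t j⌋₊ with hm
  have hge : ∀ j ∈ s, (1 : ℝ) ≤ D * t j := fun j hj => by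
    have := h1 j hj
    rw [div_le_iff₀ hD'] at this
    linarith
  have hinj : Set.InjOn m s := by
    intro j hj k hk hjk
    by_contra hne
    have h := h3 j hj k hk hne
    rw [div_le_iff₀ hD'] at h
    have a1 : ((m j : ℕ) : ℝ) ≤ D * t j := Nat.floor_le (by linarith [hge j hj])
    have a2 : D * t j < (m j : ℕ) + 1 := Nat.lt_floor_add_one _
    have a3 : ((m k : ℕ) : ℝ) ≤ D * t k := Nat.floor_le (by linarith [hge k hk])
    have a4 : D * t k < (m k : ℕ) + 1 := Nat.lt_floor_add_one _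
    rw [hjk] at a1 a2
    have : |t j - t k| * D < 1 := by
      rw [← abs_of_pos hD', ← abs_mul, abs_lt]
      constructor <;> nlinarith
    linarith
  have hmem : ∀ j ∈ s, m j ∈ Icc 1 D := fun j hj => by
    rw [mem_Icc]
    constructor
    · exact Nat.le_floor (by simpa using hge j hj)
    · apply Nat.floor_le_of_le
      have := h2 j hj
      nlinarith
  calc ∑ j ∈ s, 1 / t j ≤ ∑ j ∈ s, (D : ℝ) * (1 / (m j : ℝ)) := by
        refine sum_le_sum fun j hj => ?_
        have hm1 : (1 : ℝ) ≤ m j := by exact_mod_cast (mem_Icc.1 (hmem j hj)).1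
        have a1 : ((m j : ℕ) : ℝ) ≤ D * t j := Nat.floor_le (by linarith [hge j hj])
        have ht : 0 < t j := lt_of_lt_of_le (by positivity) (h1 j hj)
        rw [mul_one_div, div_le_div_iff₀ ht (by linarith)]
        linarith
    _ = D * ∑ j ∈ s, (1 / (m j : ℝ)) := by rw [mul_sum]
    _ = D * ∑ i ∈ s.image m, (1 / (i : ℝ)) := by rw [sum_image hinj]
    _ ≤ D * HH D := by
        apply mul_le_mul_of_nonneg_left _ hD'.le
        apply sum_le_sum_of_subset_of_nonneg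
        · intro i hi
          obtain ⟨j, hj, rfl⟩ := mem_image.1 hi
          exact hmem j hj
        · intros; positivity

/-- sum of inverse distances for points that are `1/D`-separated modulo one and away from `0` -/
lemma sum_inv_dZ_le {ι : Type*} (s : Finset ι) (y : ι → ℝ) (D : ℕ) (hD : 0 < D)
    (h1 : ∀ j ∈ s, 1 / (D : ℝ) ≤ dZ (y j))
    (h3 : ∀ j ∈ s, ∀ k ∈ s, j ≠ k → 1 / (D : ℝ) ≤ dZ (y j - y k)) :
    ∑ j ∈ s, 1 / (2 * dZ (y j)) ≤ D * HH D := by
  classical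
  have hD' : (0 : ℝ) < D := by exact_mod_cast hD
  set t : ι → ℝ := fun j => y j - round (y j) with ht
  have hsep : ∀ j ∈ s, ∀ k ∈ s, j ≠ k → 1 / (D : ℝ) ≤ |t j - t k| := fun j hj k hk hjk => by
    refine (h3 j hj k hk hjk).trans ?_
    refine (dZ_le _ (round (y j) - round (y k))).trans (le_of_eq ?_)
    congr 1; simp only [ht]; push_cast; ring
  have hA := sum_inv_le_of_spaced (s.filter fun j => 0 ≤ t j) t D hD
    (fun j hj => by
      rw [mem_filter] at hj
      have := h1 j hj.1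
      unfold dZ at this
      rwa [abs_of_nonneg hj.2] at this)
    (fun j hj => by
      have := abs_sub_round (y j)
      have := le_abs_self (y j - round (y j))
      simp only [ht]; linarith)
    (fun j hj k hk => hsep j (mem_filter.1 hj).1 k (mem_filter.1 hk).1)
  have hB := sum_inv_le_of_spaced (s.filter fun j => ¬ 0 ≤ t j) (fun j => - t j) D hD
    (fun j hj => by
      rw [mem_filter] at hj
      have := h1 j hj.1
      unfold dZ at this
      rwa [abs_of_neg (not_le.1 hj.2)] at this)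
    (fun j hj => by
      have := abs_sub_round (y j)
      have := neg_abs_le (y j - round (y j))
      simp only [ht]; linarith)
    (fun j hj k hk hjk => by
      have := hsep j (mem_filter.1 hj).1 k (mem_filter.1 hk).1 hjk
      rw [← abs_neg] at this
      convert this using 2; ring)
  rw [← sum_filter_add_sum_filter_not s (fun j => 0 ≤ t j)]
  have e1 : ∑ j ∈ s.filter (fun j => 0 ≤ t j), 1 / (2 * dZ (y j))
      = (1 / 2) * ∑ j ∈ s.filter (fun j => 0 ≤ t j), 1 / t j := by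
    rw [mul_sum]
    refine sum_congr rfl fun j hj => ?_
    rw [mem_filter] at hj
    unfold dZ
    rw [abs_of_nonneg hj.2]
    simp only [ht]
    rw [one_div_mul_one_div]
  have e2 : ∑ j ∈ s.filter (fun j => ¬ 0 ≤ t j), 1 / (2 * dZ (y j))
      = (1 / 2) * ∑ j ∈ s.filter (fun j => ¬ 0 ≤ t j), 1 / (- t j) := by
    rw [mul_sum]
    refine sum_congr rfl fun j hj => ?_
    rw [mem_filter] at hj
    unfold dZ
    rw [abs_of_neg (not_le.1 hj.2)]
    simp only [ht]
    rw [one_div_mul_one_div]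
  rw [e1, e2]
  linarith

lemma normSq_sum_eq {ι : Type*} (s : Finset ι) (z : ι → ℂ) :
    ((‖∑ j ∈ s, z j‖ ^ 2 : ℝ) : ℂ) = ∑ j ∈ s, ∑ k ∈ s, z j * (starRingEnd ℂ) (z k) := by
  rw [← sum_mul_sum, ← map_sum, Complex.mul_conj, Complex.normSq_eq_norm_sq]

/-- dual form of the large sieve -/
lemma largeSieve_dual {ι : Type*} (s : Finset ι) (x : ι → ℝ) (D : ℕ) (hD : 0 < D)
    (hx : ∀ j ∈ s, ∀ k ∈ s, j ≠ k → 1 / (D : ℝ) ≤ dZ (x j - x k)) (N : ℕ) (c : ι → ℂ) :
    ∑ n ∈ range N, ‖∑ j ∈ s, c j * ee (n * x j)‖ ^ 2 ≤ (N + D * HH D) * ∑ j ∈ s, ‖c j‖ ^ 2 := by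
  classical
  have hD' : (0 : ℝ) < D := by exact_mod_cast hD
  set K : ι → ι → ℝ := fun j k => ‖∑ n ∈ range N, ee (n * (x j - x k))‖ with hK
  have hKsymm : ∀ j k, K j k = K k j := fun j k => by
    simp only [hK]
    rw [← Complex.norm_conj, map_sum]
    congr 1
    refine sum_congr rfl fun n _ => ?_
    rw [conj_ee]; congr 1; ring
  have hK0 : ∀ j k, 0 ≤ K j k := fun j k => norm_nonneg _
  have hrow : ∀ j ∈ s, ∑ k ∈ s, K j k ≤ N + D * HH D := fun j hj => by
    rw [← add_sum_erase s _ hj]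
    apply add_le_add (norm_sum_ee_le_card _ _)
    refine le_trans ?_ (sum_inv_dZ_le (s.erase j) (fun k => x j - x k) D hD
      (fun k hk => hx j hj k (mem_of_mem_erase hk) (ne_of_mem_erase hk).symm)
      (fun k hk l hl hkl => ?_))
    · refine sum_le_sum fun k hk => norm_sum_ee_le _ _ ?_
      exact lt_of_lt_of_le (by positivity)
        (hx j hj k (mem_of_mem_erase hk) (ne_of_mem_erase hk).symm)
    · have := hx l (mem_of_mem_erase hl) k (mem_of_mem_erase hk) hkl.symm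
      convert this using 2; ring
  have e1 : ((∑ n ∈ range N, ‖∑ j ∈ s, c j * ee (n * x j)‖ ^ 2 : ℝ) : ℂ)
      = ∑ j ∈ s, ∑ k ∈ s, c j * (starRingEnd ℂ) (c k) * ∑ n ∈ range N, ee (n * (x j - x k)) := by
    rw [Complex.ofReal_sum]
    simp_rw [normSq_sum_eq]
    rw [sum_comm]
    refine sum_congr rfl fun j _ => ?_
    rw [sum_comm]
    refine sum_congr rfl fun k _ => ?_
    rw [mul_sum]
    refine sum_congr rfl fun n _ => ?_
    rw [map_mul, conj_ee, mul_sub, sub_eq_add_neg, ee_add]; ring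
  have e2 : ∑ n ∈ range N, ‖∑ j ∈ s, c j * ee (n * x j)‖ ^ 2
      ≤ ∑ j ∈ s, ∑ k ∈ s, ‖c j‖ * ‖c k‖ * K j k := by
    have h0 : 0 ≤ ∑ n ∈ range N, ‖∑ j ∈ s, c j * ee (n * x j)‖ ^ 2 :=
      sum_nonneg fun _ _ => by positivity
    rw [← abs_of_nonneg h0, ← Real.norm_eq_abs, ← Complex.norm_real, e1]
    refine (norm_sum_le _ _).trans (sum_le_sum fun j _ => ?_)
    refine (norm_sum_le _ _).trans (sum_le_sum fun k _ => ?_)
    rw [norm_mul, norm_mul, Complex.norm_conj]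
  have e3 : ∑ j ∈ s, ∑ k ∈ s, ‖c j‖ * ‖c k‖ * K j k
      ≤ ∑ j ∈ s, ∑ k ∈ s, (‖c j‖ ^ 2 / 2 * K j k + ‖c k‖ ^ 2 / 2 * K j k) := by
    refine sum_le_sum fun j _ => sum_le_sum fun k _ => ?_
    have := hK0 j k
    nlinarith [sq_nonneg (‖c j‖ - ‖c k‖)]
  have e4 : ∑ j ∈ s, ∑ k ∈ s, (‖c j‖ ^ 2 / 2 * K j k + ‖c k‖ ^ 2 / 2 * K j k)
      = ∑ j ∈ s, ‖c j‖ ^ 2 * ∑ k ∈ s, K j k := by
    simp_rw [sum_add_distrib]
    rw [sum_comm (f := fun j k => ‖c k‖ ^ 2 / 2 * K j k), ← sum_add_distrib]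
    refine sum_congr rfl fun j _ => ?_
    rw [← sum_add_distrib, mul_sum]
    refine sum_congr rfl fun k _ => ?_
    rw [hKsymm k j]; ring
  calc _ ≤ _ := e2
    _ ≤ _ := e3
    _ = _ := e4
    _ ≤ ∑ j ∈ s, ‖c j‖ ^ 2 * (N + D * HH D) :=
        sum_le_sum fun j hj => mul_le_mul_of_nonneg_left (hrow j hj) (by positivity)
    _ = _ := by rw [← sum_mul, mul_comm]

/-- the additive large sieve for `1/D`-separated points -/
theorem largeSieve {ι : Type*} (s : Finset ι) (x : ι → ℝ) (D : ℕ) (hD : 0 < D)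
    (hx : ∀ j ∈ s, ∀ k ∈ s, j ≠ k → 1 / (D : ℝ) ≤ dZ (x j - x k)) (N : ℕ) (a : ℕ → ℂ) :
    ∑ j ∈ s, ‖∑ n ∈ range N, a n * ee (n * x j)‖ ^ 2
      ≤ (N + D * HH D) * ∑ n ∈ range N, ‖a n‖ ^ 2 := by
  set S : ι → ℂ := fun j => ∑ n ∈ range N, a n * ee (n * x j) with hS
  set T : ℝ := ∑ j ∈ s, ‖S j‖ ^ 2 with hT
  set A : ℝ := ∑ n ∈ range N, ‖a n‖ ^ 2 with hA
  set C : ℝ := N + D * HH D with hC
  have hT0 : 0 ≤ T := sum_nonneg fun _ _ => by positivity
  have hA0 : 0 ≤ A := sum_nonneg fun _ _ => by positivity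
  have hC0 : 0 ≤ C := by have := HH_nonneg D; positivity
  have hd := largeSieve_dual s x D hD hx N (fun j => (starRingEnd ℂ) (S j))
  simp only [Complex.norm_conj] at hd
  have e1 : (T : ℂ) = ∑ n ∈ range N, a n * ∑ j ∈ s, (starRingEnd ℂ) (S j) * ee (n * x j) := by
    rw [hT, Complex.ofReal_sum]
    simp_rw [mul_sum]
    rw [sum_comm]
    refine sum_congr rfl fun j _ => ?_
    rw [← Complex.normSq_eq_norm_sq, Complex.normSq_eq_conj_mul_self]
    conv_lhs => rw [show S j = ∑ n ∈ range N, a n * ee (n * x j) from rfl]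
    rw [mul_sum]
    refine sum_congr rfl fun n _ => ?_
    ring
  have e2 : T ≤ ∑ n ∈ range N, ‖a n‖ * ‖∑ j ∈ s, (starRingEnd ℂ) (S j) * ee (n * x j)‖ := by
    rw [← abs_of_nonneg hT0, ← Real.norm_eq_abs, ← Complex.norm_real, e1]
    refine (norm_sum_le _ _).trans (sum_le_sum fun n _ => ?_)
    rw [norm_mul]
  have e3 := sum_mul_sq_le_sq_mul_sq (range N) (fun n => ‖a n‖)
    (fun n => ‖∑ j ∈ s, (starRingEnd ℂ) (S j) * ee (n * x j)‖)
  have e4 : T ^ 2 ≤ A * (C * T) := by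
    calc T ^ 2 ≤ _ := pow_le_pow_left₀ hT0 e2 2
      _ ≤ _ := e3
      _ ≤ A * (C * T) := mul_le_mul_of_nonneg_left hd hA0
  rcases hT0.eq_or_lt with h | h
  · rw [← h]; positivity
  · have : T * T ≤ (C * A) * T := by nlinarith
    exact le_of_mul_le_mul_right this h

lemma farey_spaced {F f h f' h' : ℕ} (hf : f ∈ Icc 1 F) (hf' : f' ∈ Icc 1 F) (hh : h < f)
    (hh' : h' < f') (hc : Nat.Coprime h f) (hc' : Nat.Coprime h' f') (hne : (f, h) ≠ (f', h')) :
    1 / ((F ^ 2 : ℕ) : ℝ) ≤ dZ ((h : ℝ) / f - (h' : ℝ) / f') := by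
  rw [mem_Icc] at hf hf'
  have hf0 : (0 : ℝ) < f := by exact_mod_cast hf.1
  have hf0' : (0 : ℝ) < f' := by exact_mod_cast hf'.1
  unfold dZ
  set m := round ((h : ℝ) / f - (h' : ℝ) / f') with hm
  have e : (h : ℝ) / f - (h' : ℝ) / f' - m = (((h : ℤ) * f' - h' * f - m * f * f' : ℤ) : ℝ) / (f * f') := by
    push_cast; field_simp
  have hnz : ((h : ℤ) * f' - h' * f - m * f * f' : ℤ) ≠ 0 := by
    intro h0
    rw [h0] at e
    simp only [Int.cast_zero, zero_div] at e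
    have b1 : (h : ℝ) / f < 1 := by rw [div_lt_one hf0]; exact_mod_cast hh
    have b2 : (h' : ℝ) / f' < 1 := by rw [div_lt_one hf0']; exact_mod_cast hh'
    have b3 : 0 ≤ (h : ℝ) / f := by positivity
    have b4 : 0 ≤ (h' : ℝ) / f' := by positivity
    have m1 : (m : ℝ) < 1 := by linarith
    have m2 : (-1 : ℝ) < m := by linarith
    have m0 : m = 0 := by
      have m1' : m < 1 := by exact_mod_cast m1
      have m2' : -1 < m := by exact_mod_cast m2
      omega
    rw [m0] at h0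
    have h1 : h * f' = h' * f := by
      have : (h : ℤ) * f' = h' * f := by linarith
      exact_mod_cast this
    have d1 : f ∣ f' := by
      apply Nat.Coprime.dvd_of_dvd_mul_left hc.symm
      rw [h1]; exact Dvd.intro_left _ rfl
    have d2 : f' ∣ f := by
      apply Nat.Coprime.dvd_of_dvd_mul_left hc'.symm
      rw [← h1]; exact Dvd.intro_left _ rfl
    have d3 : f = f' := Nat.dvd_antisymm d1 d2
    subst d3
    have : h = h' := Nat.eq_of_mul_eq_mul_right hf.1 h1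
    subst this
    exact hne rfl
  rw [e, abs_div, abs_of_pos (mul_pos hf0 hf0')]
  have h1 : (1 : ℝ) ≤ |(((h : ℤ) * f' - h' * f - m * f * f' : ℤ) : ℝ)| := by
    rw [← Int.cast_abs]
    exact_mod_cast Int.one_le_abs hnz
  have h2 : (f : ℝ) * f' ≤ ((F ^ 2 : ℕ) : ℝ) := by
    have : f * f' ≤ F ^ 2 := by rw [sq]; exact Nat.mul_le_mul hf.2 hf'.2
    exact_mod_cast this
  calc 1 / ((F ^ 2 : ℕ) : ℝ) ≤ 1 / ((f : ℝ) * f') :=
        one_div_le_one_div_of_le (mul_pos hf0 hf0') h2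
    _ ≤ _ := by gcongr

/-- the additive large sieve at Farey points -/
theorem largeSieve_farey (F N : ℕ) (a : ℕ → ℂ) :
    ∑ f ∈ Icc 1 F, ∑ h ∈ (range f).filter (fun h => Nat.Coprime h f),
        ‖∑ n ∈ range N, a n * ee (n * ((h : ℝ) / f))‖ ^ 2
      ≤ (N + (F ^ 2 : ℕ) * HH (F ^ 2)) * ∑ n ∈ range N, ‖a n‖ ^ 2 := by
  rcases Nat.eq_zero_or_pos F with rfl | hF
  · simp only [zero_lt_one, Icc_eq_empty_of_lt, sum_empty]
    have := HH_nonneg (0 ^ 2)
    positivity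
  rw [sum_sigma']
  refine largeSieve ((Icc 1 F).sigma fun f => (range f).filter (fun h => Nat.Coprime h f))
    (fun p => (p.2 : ℝ) / p.1) (F ^ 2) (by positivity) ?_ N a
  rintro ⟨f, h⟩ hj ⟨f', h'⟩ hk hne
  simp only [mem_sigma, mem_filter, mem_range] at hj hk
  refine farey_spaced hj.1 hk.1 hj.2.1 hk.2.1 hj.2.2 hk.2.2 ?_
  intro he
  apply hne
  simp only [Prod.mk.injEq] at he
  obtain ⟨rfl, rfl⟩ := he
  rfl

end Pool.Agent.Lib.LargeSieve
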