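import Pool.Agent.Lib.LargeSieve.Mult

/-!
Arithmetic large sieve (Montgomery).
-/

set_option autoImplicit false

namespace Pool.Agent.Lib.LargeSieve

open Finset Real

/-- exponential sum over a finite set of naturals -/
noncomputable def expSum (Z : Finset ℕ) (θ : ℝ) : ℂ := ∑ n ∈ Z, ee (n * θ)

lemma expSum_add_nat (Z : Finset ℕ) (θ : ℝ) (m : ℕ) : expSum Z (θ + m) = expSum Z θ := by
  unfold expSum
  refine sum_congr rfl fun n _ => ?_
  rw [mul_add, ee_add, ← Nat.cast_mul, ee_natCast, mul_one]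

lemma sum_ee_orth (p : ℕ) (hp : 0 < p) {r r' : ℕ} (hr : r < p) (hr' : r' < p) :
    ∑ h ∈ range p, ee (h * ((r : ℝ) / p)) * (starRingEnd ℂ) (ee (h * ((r' : ℝ) / p)))
      = if r = r' then ((p : ℝ) : ℂ) else 0 := by
  have : NeZero p := ⟨hp.ne'⟩
  have h1 := sum_stdAddChar_orth p (r : ZMod p) (r' : ZMod p)
  rw [sum_zmod_eq_sum_range] at h1
  simp_rw [stdAddChar_nat] at h1
  rw [h1]
  have : ((r : ZMod p) = (r' : ZMod p)) ↔ r = r' := by
    rw [ZMod.natCast_eq_natCast_iff', Nat.mod_eq_of_lt hr, Nat.mod_eq_of_lt hr']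
  simp only [this]

lemma montgomery_prime (Z : Finset ℕ) {p : ℕ} (hp : p.Prime) (Ω : Finset ℕ) (hΩ : Ω ⊆ range p)
    (hc : Ω.card < p) (hZ : ∀ n ∈ Z, n % p ∉ Ω) (θ : ℝ) :
    (Ω.card : ℝ) / (p - Ω.card) * ‖expSum Z θ‖ ^ 2
      ≤ ∑ h ∈ (range p).filter (fun h => Nat.Coprime h p), ‖expSum Z (θ + (h : ℝ) / p)‖ ^ 2 := by
  have hp0 : (0 : ℝ) < p := by exact_mod_cast hp.pos
  set Y : ℕ → ℂ := fun r => ∑ n ∈ Z with n % p = r, ee (n * θ) with hY
  have h1 : ∀ h : ℕ, expSum Z (θ + (h : ℝ) / p) = ∑ r ∈ range p, ee (h * ((r : ℝ) / p)) * Y r := by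
    intro h
    unfold expSum
    rw [← sum_fiberwise_of_maps_to (s := Z) (t := range p) (g := fun n => n % p)
      (fun n _ => mem_range.2 (Nat.mod_lt _ hp.pos))]
    refine sum_congr rfl fun r _ => ?_
    rw [hY, mul_sum]
    refine sum_congr rfl fun n hn => ?_
    have hn2 := (mem_filter.1 hn).2
    have e : (n : ℝ) * (θ + (h : ℝ) / p) = (h * ((r : ℝ) / p) + n * θ) + ((n / p * h : ℕ) : ℝ) := by
      have : (n : ℝ) = p * (n / p : ℕ) + r := by
        have := Nat.div_add_mod n p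
        rw [hn2] at this
        exact_mod_cast this.symm
      push_cast
      generalize ((n / p : ℕ) : ℝ) = Q at this ⊢
      rw [this]
      field_simp
      ring
    rw [e, ee_add, ee_natCast, mul_one, ee_add]
  have h2 := sum_normSq_of_orth (range p) (range p) (fun h r => ee (h * ((r : ℝ) / p)))
    (fun _ => (p : ℝ)) Y (fun j hj k hk => sum_ee_orth p hp.pos (mem_range.1 hj) (mem_range.1 hk))
  simp_rw [← h1] at h2
  rw [← mul_sum] at h2
  have h3 : ∑ h ∈ range p, ‖expSum Z (θ + (h : ℝ) / p)‖ ^ 2 = ‖expSum Z θ‖ ^ 2 +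
      ∑ h ∈ (range p).filter (fun h => Nat.Coprime h p), ‖expSum Z (θ + (h : ℝ) / p)‖ ^ 2 := by
    have : range p = insert 0 ((range p).filter (fun h => Nat.Coprime h p)) := by
      ext h
      simp only [mem_range, mem_insert, mem_filter]
      constructor
      · intro hh
        rcases Nat.eq_zero_or_pos h with h0 | h0
        · exact Or.inl h0
        · exact Or.inr ⟨hh, ((Nat.Prime.coprime_iff_not_dvd hp).2
            (Nat.not_dvd_of_pos_of_lt h0 hh)).symm⟩
      · rintro (rfl | hh)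
        · exact hp.pos
        · exact hh.1
    conv_lhs => rw [this]
    rw [sum_insert]
    · simp
    · simp [hp.ne_one]
  have h4 : expSum Z θ = ∑ r ∈ range p \ Ω, Y r := by
    unfold expSum
    rw [← sum_fiberwise_of_maps_to (s := Z) (t := range p \ Ω) (g := fun n => n % p)
      (fun n hn => mem_sdiff.2 ⟨mem_range.2 (Nat.mod_lt _ hp.pos), hZ n hn⟩)]
  have h5 : ‖expSum Z θ‖ ^ 2 ≤ (p - Ω.card) * ∑ r ∈ range p, ‖Y r‖ ^ 2 := by
    rw [h4]
    calc _ ≤ (∑ r ∈ range p \ Ω, ‖Y r‖) ^ 2 :=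
          pow_le_pow_left₀ (norm_nonneg _) (norm_sum_le _ _) 2
      _ ≤ (range p \ Ω).card * ∑ r ∈ range p \ Ω, ‖Y r‖ ^ 2 := sq_sum_le_card_mul_sum_sq
      _ ≤ _ := by
          rw [card_sdiff_of_subset hΩ, card_range, Nat.cast_sub hc.le]
          apply mul_le_mul_of_nonneg_left
          · exact sum_le_sum_of_subset_of_nonneg sdiff_subset fun _ _ _ => by positivity
          · have : (Ω.card : ℝ) ≤ p := by exact_mod_cast hc.le
            linarith
  have hpos : (0 : ℝ) < p - Ω.card := by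
    have : (Ω.card : ℝ) < p := by exact_mod_cast hc
    linarith
  rw [div_mul_eq_mul_div, div_le_iff₀ hpos]
  rw [h3] at h2
  set A := ‖expSum Z θ‖ ^ 2
  set B := ∑ h ∈ (range p).filter (fun h => Nat.Coprime h p), ‖expSum Z (θ + (h : ℝ) / p)‖ ^ 2
  set C := ∑ r ∈ range p, ‖Y r‖ ^ 2
  have : B = p * C - A := by linarith
  rw [this]
  nlinarith

lemma sum_coprime_mul_le {p d : ℕ} (hp : 0 < p) (hd : 0 < d) (hpd : Nat.Coprime p d)
    (G : ℝ → ℝ) (hG0 : ∀ x, 0 ≤ G x) (hG : ∀ (x : ℝ) (m : ℕ), G (x + m) = G x) (θ : ℝ) :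
    ∑ h ∈ (range d).filter (fun h => Nat.Coprime h d),
        ∑ b ∈ (range p).filter (fun b => Nat.Coprime b p), G (θ + (h : ℝ) / d + (b : ℝ) / p)
      ≤ ∑ h ∈ (range (p * d)).filter (fun h => Nat.Coprime h (p * d)),
          G (θ + (h : ℝ) / (p * d : ℕ)) := by
  have hp0 : (0 : ℝ) < p := by exact_mod_cast hp
  have hd0 : (0 : ℝ) < d := by exact_mod_cast hd
  rw [← sum_product']
  set φ : ℕ × ℕ → ℕ := fun x => (x.1 * p + x.2 * d) % (p * d) with hφ
  have hinj : Set.InjOn φ (((range d).filter (fun h => Nat.Coprime h d)) ×ˢ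
      ((range p).filter (fun b => Nat.Coprime b p)) : Finset (ℕ × ℕ)) := by
    rintro ⟨h, b⟩ hx ⟨h', b'⟩ hy hxy
    simp only [coe_product, coe_filter, mem_range, Set.mem_prod, Set.mem_ofPred_eq] at hx hy
    have hm : h * p + b * d ≡ h' * p + b' * d [MOD p * d] := hxy
    have m1 : h * p ≡ h' * p [MOD d] := by
      have := hm.of_mul_left p
      unfold Nat.ModEq at this ⊢
      simpa using this
    have m2 : b * d ≡ b' * d [MOD p] := by
      have := hm.of_mul_right d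
      unfold Nat.ModEq at this ⊢
      simpa using this
    have m3 := Nat.ModEq.cancel_right_of_coprime hpd.symm m1
    have m4 := Nat.ModEq.cancel_right_of_coprime hpd m2
    have e1 := Nat.ModEq.eq_of_lt_of_lt m3 hx.1.1 hy.1.1
    have e2 := Nat.ModEq.eq_of_lt_of_lt m4 hx.2.1 hy.2.1
    rw [e1, e2]
  calc _ = ∑ x ∈ ((range d).filter (fun h => Nat.Coprime h d)) ×ˢ
      ((range p).filter (fun b => Nat.Coprime b p)), G (θ + (φ x : ℝ) / (p * d : ℕ)) := by
        refine sum_congr rfl fun x _ => ?_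
        rw [← hG (θ + (φ x : ℝ) / (p * d : ℕ)) ((x.1 * p + x.2 * d) / (p * d))]
        congr 1
        have := Nat.div_add_mod (x.1 * p + x.2 * d) (p * d)
        have e : ((x.1 * p + x.2 * d : ℕ) : ℝ)
            = (p * d : ℕ) * (((x.1 * p + x.2 * d) / (p * d) : ℕ) : ℝ) + (φ x : ℝ) := by
          exact_mod_cast this.symm
        generalize (((x.1 * p + x.2 * d) / (p * d) : ℕ) : ℝ) = Q at e ⊢
        push_cast at e ⊢
        field_simp
        linarith
    _ = ∑ h ∈ (((range d).filter (fun h => Nat.Coprime h d)) ×ˢ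
      ((range p).filter (fun b => Nat.Coprime b p))).image φ, G (θ + (h : ℝ) / (p * d : ℕ)) := by
        rw [sum_image hinj]
    _ ≤ _ := by
        refine sum_le_sum_of_subset_of_nonneg ?_ fun _ _ _ => hG0 _
        intro y hy
        obtain ⟨⟨h, b⟩, hx, rfl⟩ := mem_image.1 hy
        simp only [mem_product, mem_filter, mem_range] at hx ⊢
        refine ⟨Nat.mod_lt _ (Nat.mul_pos hp hd), ?_⟩
        simp only [hφ]
        rw [Nat.Coprime, ← Nat.gcd_rec, Nat.gcd_comm]
        apply Nat.Coprime.mul_right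
        · rw [add_comm, Nat.coprime_add_mul_right_left]
          exact Nat.Coprime.mul_left hx.2.2 hpd.symm
        · rw [Nat.coprime_add_mul_right_left]
          exact Nat.Coprime.mul_left hx.1.2 hpd

lemma montgomery (Z : Finset ℕ) (Ω : ℕ → Finset ℕ) (P : Finset ℕ) (hP : ∀ p ∈ P, p.Prime)
    (hΩ : ∀ p ∈ P, Ω p ⊆ range p) (hc : ∀ p ∈ P, (Ω p).card < p)
    (hZ : ∀ p ∈ P, ∀ n ∈ Z, n % p ∉ Ω p) (θ : ℝ) :
    (∏ p ∈ P, ((Ω p).card : ℝ) / (p - (Ω p).card)) * ‖expSum Z θ‖ ^ 2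
      ≤ ∑ h ∈ (range (∏ p ∈ P, p)).filter (fun h => Nat.Coprime h (∏ p ∈ P, p)),
          ‖expSum Z (θ + (h : ℝ) / (∏ p ∈ P, p : ℕ))‖ ^ 2 := by
  induction P using Finset.induction_on with
  | empty => simp
  | insert p P hpP ih =>
    have hp := hP p (mem_insert_self _ _)
    have ih' := ih (fun q hq => hP q (mem_insert_of_mem hq)) (fun q hq => hΩ q (mem_insert_of_mem hq))
      (fun q hq => hc q (mem_insert_of_mem hq)) (fun q hq => hZ q (mem_insert_of_mem hq))
    rw [prod_insert hpP, prod_insert hpP]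
    have hd : 0 < ∏ q ∈ P, q := prod_pos fun q hq => (hP q (mem_insert_of_mem hq)).pos
    have hpd : Nat.Coprime p (∏ q ∈ P, q) := by
      apply Nat.Coprime.prod_right
      intro q hq
      exact (Nat.coprime_primes hp (hP q (mem_insert_of_mem hq))).2 (fun h => hpP (h ▸ hq))
    have hg : (0 : ℝ) ≤ ((Ω p).card : ℝ) / (p - (Ω p).card) := by
      have : ((Ω p).card : ℝ) ≤ p := by exact_mod_cast (hc p (mem_insert_self _ _)).le
      apply div_nonneg (by positivity); linarith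
    refine le_trans ?_ (sum_coprime_mul_le hp.pos hd hpd (fun x => ‖expSum Z x‖ ^ 2)
      (fun _ => by positivity) (fun x m => by rw [expSum_add_nat]) θ)
    rw [mul_assoc]
    refine (mul_le_mul_of_nonneg_left ih' hg).trans ?_
    rw [mul_sum]
    exact sum_le_sum fun h _ => montgomery_prime Z hp (Ω p) (hΩ p (mem_insert_self _ _))
      (hc p (mem_insert_self _ _)) (hZ p (mem_insert_self _ _)) _

/-- The arithmetic large sieve: a set `Z ⊆ [0, N)` avoiding the residue classes `Ω p` modulo `p`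
for all primes `p ≤ D`. -/
theorem largeSieve_arith (Z : Finset ℕ) (N D : ℕ) (hZN : Z ⊆ range N) (Ω : ℕ → Finset ℕ)
    (hΩ : ∀ p, p.Prime → p ≤ D → Ω p ⊆ range p) (hc : ∀ p, p.Prime → p ≤ D → (Ω p).card < p)
    (hZ : ∀ p, p.Prime → p ≤ D → ∀ n ∈ Z, n % p ∉ Ω p) :
    (Z.card : ℝ) * ∑ d ∈ (Icc 1 D).filter Squarefree,
        ∏ p ∈ d.primeFactors, ((Ω p).card : ℝ) / (p - (Ω p).card)
      ≤ N + (D ^ 2 : ℕ) * HH (D ^ 2) := by
  have h1 := largeSieve_farey D N (fun n => if n ∈ Z then 1 else 0)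
  have e1 : ∀ θ : ℝ, ∑ n ∈ range N, (if n ∈ Z then (1 : ℂ) else 0) * ee (n * θ) = expSum Z θ := by
    intro θ
    simp only [ite_mul, one_mul, zero_mul]
    rw [← sum_filter, filter_mem_eq_inter, inter_eq_right.2 hZN, expSum]
  have e2 : ∑ n ∈ range N, ‖(if n ∈ Z then (1 : ℂ) else 0)‖ ^ 2 = Z.card := by
    have : ∀ n, ‖(if n ∈ Z then (1 : ℂ) else 0)‖ ^ 2 = if n ∈ Z then (1 : ℝ) else 0 := fun n => by
      split_ifs <;> simp
    simp_rw [this]
    rw [← sum_filter, filter_mem_eq_inter, inter_eq_right.2 hZN]; simp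
  simp_rw [e1] at h1
  rw [e2] at h1
  have e3 : ‖expSum Z 0‖ = Z.card := by simp [expSum]
  have h2 : (∑ d ∈ (Icc 1 D).filter Squarefree,
        ∏ p ∈ d.primeFactors, ((Ω p).card : ℝ) / (p - (Ω p).card)) * (Z.card : ℝ) ^ 2
      ≤ ∑ f ∈ Icc 1 D, ∑ h ∈ (range f).filter (fun h => Nat.Coprime h f),
        ‖expSum Z ((h : ℝ) / f)‖ ^ 2 := by
    refine le_trans ?_ (sum_le_sum_of_subset_of_nonneg (filter_subset Squarefree _)
      fun _ _ _ => sum_nonneg fun _ _ => by positivity)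
    rw [sum_mul]
    refine sum_le_sum fun d hd => ?_
    rw [mem_filter, mem_Icc] at hd
    have hle : ∀ p ∈ d.primeFactors, p ≤ D := fun p hp =>
      (Nat.le_of_mem_primeFactors hp).trans hd.1.2
    have := montgomery Z Ω d.primeFactors (fun p hp => Nat.prime_of_mem_primeFactors hp)
      (fun p hp => hΩ p (Nat.prime_of_mem_primeFactors hp) (hle p hp))
      (fun p hp => hc p (Nat.prime_of_mem_primeFactors hp) (hle p hp))
      (fun p hp => hZ p (Nat.prime_of_mem_primeFactors hp) (hle p hp)) 0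
    rw [Nat.prod_primeFactors_of_squarefree hd.2, e3] at this
    simpa using this
  rcases Nat.eq_zero_or_pos Z.card with h0 | h0
  · rw [h0]
    have := HH_nonneg (D ^ 2)
    simp only [Nat.cast_zero, zero_mul]
    positivity
  · have h0' : (0 : ℝ) < Z.card := by exact_mod_cast h0
    refine le_of_mul_le_mul_right ?_ h0'
    calc _ = _ := by ring
      _ ≤ _ := h2
      _ ≤ _ := h1

end Pool.Agent.Lib.LargeSieve
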