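import Pool.Agent.Lib.LargeSieve.TwoForms

/-!
Bilinear forms averaged over moduli all of whose divisors `> 1` are large.
-/

set_option autoImplicit false

namespace Pool.Agent.Lib.LargeSieve

open Finset Real

lemma sum_le_of_injOn {α β : Type*} (s : Finset α) (t : Finset β) (f : α → ℝ) (F : β → ℝ)
    (φ : α → β) (hφ : Set.InjOn φ s) (hm : ∀ a ∈ s, φ a ∈ t) (hF : ∀ x ∈ t, 0 ≤ F x)
    (h : ∀ a ∈ s, f a ≤ F (φ a)) : ∑ a ∈ s, f a ≤ ∑ x ∈ t, F x := by
  classical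
  calc ∑ a ∈ s, f a ≤ ∑ a ∈ s, F (φ a) := sum_le_sum h
    _ = ∑ x ∈ s.image φ, F x := (sum_image hφ).symm
    _ ≤ _ := sum_le_sum_of_subset_of_nonneg
        (fun x hx => by obtain ⟨a, ha, rfl⟩ := mem_image.1 hx; exact hm a ha)
        fun x hx _ => hF x hx

/-- restriction of a sequence to the integers coprime to `g` -/
noncomputable def resCop (α : ℕ → ℂ) (g : ℕ) : ℕ → ℂ := fun m => if Nat.Coprime m g then α m else 0

lemma norm_resCop_le (α : ℕ → ℂ) (g m : ℕ) : ‖resCop α g m‖ ≤ ‖α m‖ := by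
  unfold resCop; split_ifs <;> simp

lemma mul_char_eq_primitive {q : ℕ} (χ : DirichletCharacter ℂ q) (α : ℕ → ℂ) (m : ℕ) :
    α m * χ m = resCop α (q / χ.conductor) m * χ.primitiveCharacter m := by
  have hq : χ.conductor * (q / χ.conductor) = q := Nat.mul_div_cancel' χ.conductor_dvd_level
  unfold resCop
  by_cases h : Nat.Coprime m q
  · have h1 : Nat.Coprime m (q / χ.conductor) :=
      h.coprime_dvd_right (Nat.div_dvd_of_dvd χ.conductor_dvd_level)
    rw [if_pos h1]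
    have := χ.primitiveCharacter_apply_of_isCoprime (a := m) (Nat.isCoprime_iff_coprime.2 h)
    simp only [Int.cast_natCast] at this
    rw [this]
  · rw [χ.map_nonunit (by rwa [ZMod.isUnit_iff_coprime])]
    split_ifs with h1
    · have h2 : ¬ Nat.Coprime m χ.conductor := fun h2 => h (hq ▸ Nat.Coprime.mul_right h2 h1)
      rw [χ.primitiveCharacter.map_nonunit (by rwa [ZMod.isUnit_iff_coprime])]
    · simp

open Classical in
lemma sum_nonprincipal_le {q : ℕ} (hq : 0 < q) (M N : ℕ) (α β : ℕ → ℂ) :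
    ∑ χ : DirichletCharacter ℂ q with χ ≠ 1,
        ‖∑ m ∈ range M, α m * χ m‖ * ‖∑ n ∈ range N, β n * χ n‖
      ≤ ∑ f ∈ q.divisors.filter (fun f => 1 < f), ∑ ψ : DirichletCharacter ℂ f with ψ.IsPrimitive,
        ‖∑ m ∈ range M, resCop α (q / f) m * ψ m‖ * ‖∑ n ∈ range N, resCop β (q / f) n * ψ n‖ := by
  have : NeZero q := ⟨hq.ne'⟩
  rw [sum_sigma']
  refine sum_le_of_injOn _ _ _ _
    (fun χ : DirichletCharacter ℂ q =>
      (⟨χ.conductor, χ.primitiveCharacter⟩ : Σ f : ℕ, DirichletCharacter ℂ f)) ?_ ?_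
    (fun _ _ => by positivity) ?_
  · intro χ _ χ' _ h
    apply MulChar.ext
    intro u
    have h1 := congrArg (fun x : (Σ f : ℕ, DirichletCharacter ℂ f) =>
      x.2 (((u : ZMod q).val : ℤ) : ZMod x.1)) h
    have hc : IsCoprime (((u : ZMod q).val : ℕ) : ℤ) q :=
      Nat.isCoprime_iff_coprime.2 (ZMod.val_coe_unit_coprime u)
    simp only at h1
    rw [χ.primitiveCharacter_apply_of_isCoprime hc,
      χ'.primitiveCharacter_apply_of_isCoprime hc] at h1
    simpa using h1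
  · intro χ hχ
    simp only [mem_sigma, mem_filter, Nat.mem_divisors, mem_univ, true_and] at hχ ⊢
    refine ⟨⟨⟨χ.conductor_dvd_level, hq.ne'⟩, ?_⟩, χ.primitiveCharacter_isPrimitive⟩
    have h0 := χ.conductor_ne_zero
    have h1 : χ.conductor ≠ 1 := fun h => hχ (DirichletCharacter.eq_one_iff_conductor_eq_one.2 h)
    omega
  · intro χ _
    simp only [mul_char_eq_primitive χ α, mul_char_eq_primitive χ β, le_refl]

open Classical in
lemma primitive_bilinear_le (F M N : ℕ) (α β : ℕ → ℂ) (B : ℝ) (hB : 0 ≤ B)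
    (h : ((M + (F ^ 2 : ℕ) * HH (F ^ 2)) * ∑ m ∈ range M, ‖α m‖ ^ 2) *
      ((N + (F ^ 2 : ℕ) * HH (F ^ 2)) * ∑ n ∈ range N, ‖β n‖ ^ 2) ≤ B ^ 2) :
    ∑ f ∈ Icc 1 F, ∑ ψ : DirichletCharacter ℂ f with ψ.IsPrimitive,
      ‖∑ m ∈ range M, α m * ψ m‖ * ‖∑ n ∈ range N, β n * ψ n‖ ≤ B := by
  have h1 := largeSieve_mult F M α
  have h2 := largeSieve_mult F N β
  rw [sum_sigma'] at h1 h2 ⊢
  refine (pow_le_pow_iff_left₀ (sum_nonneg fun _ _ => by positivity) hB two_ne_zero).1 ?_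
  refine (sum_mul_sq_le_sq_mul_sq _ _ _).trans (le_trans ?_ h)
  exact mul_le_mul h1 h2 (sum_nonneg fun _ _ => by positivity)
    ((sum_nonneg fun _ _ => by positivity).trans h1)

open Classical in
theorem bilinear_le {ι : Type*} (I : Finset ι) (q : ι → ℕ) (hinj : Set.InjOn q I) (w E : ℕ)
    (hw : 2 ≤ w) (hq0 : ∀ i ∈ I, 0 < q i) (hq1 : ∀ i ∈ I, q i < w ^ E)
    (hq2 : ∀ i ∈ I, q i ≤ 2 * (q i).totient) (hq3 : ∀ i ∈ I, ∀ f, f ∣ q i → 1 < f → w ^ 2 ≤ f)
    (M N : ℕ) (α β : ℕ → ℂ) (B : ℝ) (hB : 0 ≤ B)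
    (h : ∀ j ∈ Ico 2 E, ((M + (w : ℝ) ^ (2 * j + 2) * HH (w ^ (2 * E))) * ∑ m ∈ range M, ‖α m‖ ^ 2) *
      ((N + (w : ℝ) ^ (2 * j + 2) * HH (w ^ (2 * E))) * ∑ n ∈ range N, ‖β n‖ ^ 2)
        ≤ ((w : ℝ) ^ j * B) ^ 2) :
    ∑ i ∈ I, (1 / ((q i).totient : ℝ)) * ∑ χ : DirichletCharacter ℂ (q i) with χ ≠ 1,
        ‖∑ m ∈ range M, α m * χ m‖ * ‖∑ n ∈ range N, β n * χ n‖
      ≤ 2 * HH (w ^ E) * (E * B) := by
  have hw0 : (0 : ℝ) < w := by exact_mod_cast (by omega : 0 < w)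
  set X : ℕ → ℕ → ℝ := fun g f => ∑ ψ : DirichletCharacter ℂ f with ψ.IsPrimitive,
    ‖∑ m ∈ range M, resCop α g m * ψ m‖ * ‖∑ n ∈ range N, resCop β g n * ψ n‖ with hX
  have hX0 : ∀ g f, 0 ≤ X g f := fun g f => sum_nonneg fun _ _ => by positivity
  have s1 : ∀ i ∈ I, (1 / ((q i).totient : ℝ)) * ∑ χ : DirichletCharacter ℂ (q i) with χ ≠ 1,
        ‖∑ m ∈ range M, α m * χ m‖ * ‖∑ n ∈ range N, β n * χ n‖
      ≤ ∑ f ∈ (q i).divisors.filter (fun f => 1 < f), 2 / (q i : ℝ) * X (q i / f) f := by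
    intro i hi
    rw [← mul_sum]
    refine mul_le_mul ?_ (sum_nonprincipal_le (hq0 i hi) M N α β)
      (sum_nonneg fun _ _ => by positivity) (by positivity)
    have a1 : (0 : ℝ) < q i := by exact_mod_cast hq0 i hi
    have a2 : (0 : ℝ) < (q i).totient := by exact_mod_cast Nat.totient_pos.2 (hq0 i hi)
    have a3 : (q i : ℝ) ≤ 2 * (q i).totient := by exact_mod_cast hq2 i hi
    rw [div_le_div_iff₀ a2 a1]; linarith
  have s2 : ∑ i ∈ I, ∑ f ∈ (q i).divisors.filter (fun f => 1 < f), 2 / (q i : ℝ) * X (q i / f) f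
      ≤ ∑ x ∈ Icc 1 (w ^ E) ×ˢ Ico (w ^ 2) (w ^ E), 2 * (1 / (x.1 : ℝ)) * (1 / (x.2 : ℝ) * X x.1 x.2) := by
    rw [sum_sigma']
    refine sum_le_of_injOn _ _ _ _ (fun x : (Σ _ : ι, ℕ) => (q x.1 / x.2, x.2)) ?_ ?_
      (fun x _ => by have := hX0 x.1 x.2; positivity) ?_
    · rintro ⟨i, f⟩ hx ⟨i', f'⟩ hy hxy
      simp only [coe_sigma, coe_filter, Set.mem_sigma_iff, mem_coe, Nat.mem_divisors,
        Set.mem_ofPred_eq, Prod.mk.injEq] at hx hy hxy
      obtain ⟨e1, rfl⟩ := hxy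
      have : q i = q i' := by
        rw [← Nat.div_mul_cancel hx.2.1.1, ← Nat.div_mul_cancel hy.2.1.1, e1]
      rw [hinj hx.1 hy.1 this]
    · rintro ⟨i, f⟩ hx
      simp only [mem_sigma, mem_filter, Nat.mem_divisors, mem_product, mem_Icc, mem_Ico] at hx ⊢
      obtain ⟨hi, ⟨hf, -⟩, hf1⟩ := hx
      have hle := Nat.le_of_dvd (hq0 i hi) hf
      exact ⟨⟨Nat.div_pos hle (by omega), (Nat.div_le_self _ _).trans (hq1 i hi).le⟩,
        hq3 i hi f hf hf1, hle.trans_lt (hq1 i hi)⟩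
    · rintro ⟨i, f⟩ hx
      simp only [mem_sigma, mem_filter, Nat.mem_divisors] at hx ⊢
      obtain ⟨hi, ⟨hf, -⟩, hf1⟩ := hx
      apply le_of_eq
      have e : (q i : ℝ) = (q i / f : ℕ) * f := by exact_mod_cast (Nat.div_mul_cancel hf).symm
      generalize X (q i / f) f = Y
      rw [e]
      field_simp
  have s3 : ∀ g, ∑ f ∈ Ico (w ^ 2) (w ^ E), 1 / (f : ℝ) * X g f ≤ E * B := by
    intro g
    have t1 : ∑ f ∈ Ico (w ^ 2) (w ^ E), 1 / (f : ℝ) * X g f
        ≤ ∑ y ∈ (Ico 2 E).sigma (fun j => Icc 1 (w ^ (j + 1))), 1 / (w : ℝ) ^ y.1 * X g y.2 := by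
      refine sum_le_of_section _ _ _ _ (fun y : (Σ _ : ℕ, ℕ) => y.2)
        (fun y _ => by have := hX0 g y.2; positivity) ?_
      intro f hf
      rw [mem_Ico] at hf
      have hf0 : 0 < f := lt_of_lt_of_le (by positivity) hf.1
      refine ⟨⟨Nat.log w f, f⟩, ?_, rfl, ?_⟩
      · simp only [mem_sigma, mem_Ico, mem_Icc]
        exact ⟨⟨Nat.le_log_of_pow_le (by omega) hf.1, Nat.log_lt_of_lt_pow hf0.ne' hf.2⟩, hf0,
          (Nat.lt_pow_succ_log_self (by omega) f).le⟩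
      · refine mul_le_mul_of_nonneg_right ?_ (hX0 g f)
        apply one_div_le_one_div_of_le (by positivity)
        exact_mod_cast Nat.pow_log_le_self w hf0.ne'
    refine t1.trans ?_
    rw [sum_sigma]
    calc _ ≤ ∑ j ∈ Ico 2 E, B := by
          refine sum_le_sum fun j hj => ?_
          simp only
          rw [← mul_sum, one_div, inv_mul_le_iff₀ (by positivity)]
          refine primitive_bilinear_le (w ^ (j + 1)) M N (resCop α g) (resCop β g) _
            (by positivity) (le_trans ?_ (h j hj))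
          have hH : HH ((w ^ (j + 1)) ^ 2) ≤ HH (w ^ (2 * E)) := by
            apply HH_mono
            rw [← pow_mul]
            apply Nat.pow_le_pow_right (by omega)
            have := (mem_Ico.1 hj).2
            omega
          have hH0 := HH_nonneg ((w ^ (j + 1)) ^ 2)
          have e : (((w ^ (j + 1)) ^ 2 : ℕ) : ℝ) = (w : ℝ) ^ (2 * j + 2) := by
            push_cast; ring
          rw [e]
          have b1 : ∑ m ∈ range M, ‖resCop α g m‖ ^ 2 ≤ ∑ m ∈ range M, ‖α m‖ ^ 2 :=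
            sum_le_sum fun m _ => pow_le_pow_left₀ (norm_nonneg _) (norm_resCop_le α g m) 2
          have b2 : ∑ m ∈ range N, ‖resCop β g m‖ ^ 2 ≤ ∑ m ∈ range N, ‖β m‖ ^ 2 :=
            sum_le_sum fun m _ => pow_le_pow_left₀ (norm_nonneg _) (norm_resCop_le β g m) 2
          have b3 : 0 ≤ ∑ m ∈ range M, ‖resCop α g m‖ ^ 2 := sum_nonneg fun _ _ => by positivity
          have b4 : 0 ≤ ∑ m ∈ range N, ‖resCop β g m‖ ^ 2 := sum_nonneg fun _ _ => by positivity
          have b5 := b3.trans b1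
          have b6 := hH0.trans hH
          gcongr
      _ ≤ E * B := by
          rw [sum_const, Nat.card_Ico, nsmul_eq_mul]
          apply mul_le_mul_of_nonneg_right _ hB
          exact_mod_cast Nat.sub_le E 2
  calc _ ≤ _ := sum_le_sum s1
    _ ≤ _ := s2
    _ = ∑ g ∈ Icc 1 (w ^ E), 2 * (1 / (g : ℝ)) * ∑ f ∈ Ico (w ^ 2) (w ^ E), 1 / (f : ℝ) * X g f := by
        rw [sum_product]
        simp_rw [mul_sum]
    _ ≤ ∑ g ∈ Icc 1 (w ^ E), 2 * (1 / (g : ℝ)) * (E * B) :=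
        sum_le_sum fun g _ => mul_le_mul_of_nonneg_left (s3 g) (by positivity)
    _ = _ := by rw [← sum_mul, ← mul_sum]; rfl

/-- discrepancy kernel of the residue class `a` modulo `q` -/
noncomputable def kap (q a n : ℕ) : ℝ :=
  (if n ≡ a [MOD q] then 1 else 0) - (if Nat.Coprime n q then 1 / (q.totient : ℝ) else 0)

open Classical in
lemma kap_eq {q a : ℕ} (hq : 0 < q) (ha : Nat.Coprime a q) (n : ℕ) :
    (kap q a n : ℂ) = (1 / (q.totient : ℂ)) *
      ∑ χ : DirichletCharacter ℂ q with χ ≠ 1, χ n * (starRingEnd ℂ) (χ a) := by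
  have hφ : (q.totient : ℂ) ≠ 0 := by exact_mod_cast (Nat.totient_pos.2 hq).ne'
  have hau : IsUnit (a : ZMod q) := (ZMod.isUnit_iff_coprime a q).2 ha
  have h3 : ∑ χ : DirichletCharacter ℂ q with χ ≠ 1, χ n * (starRingEnd ℂ) (χ a)
      = (if (n : ZMod q) = a then ((if IsUnit (n : ZMod q) then (q.totient : ℝ) else 0 : ℝ) : ℂ)
        else 0) - if Nat.Coprime n q then 1 else 0 := by
    have h2 : ∑ χ : DirichletCharacter ℂ q with ¬ χ ≠ 1, χ n * (starRingEnd ℂ) (χ a)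
        = if Nat.Coprime n q then 1 else 0 := by
      rw [sum_eq_single_of_mem (1 : DirichletCharacter ℂ q) (by simp)
        (fun b hb hb1 => absurd hb1 (mem_filter.1 hb).2), MulChar.one_apply hau]
      split_ifs with h
      · rw [MulChar.one_apply ((ZMod.isUnit_iff_coprime n q).2 h)]; simp
      · rw [MulChar.map_nonunit _ (by rwa [ZMod.isUnit_iff_coprime])]; simp
    rw [← h2, eq_sub_iff_add_eq, sum_filter_add_sum_filter_not]
    have : NeZero q := ⟨hq.ne'⟩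
    convert sum_char_mul_conj (n : ZMod q) (a : ZMod q)
  rw [h3]
  unfold kap
  by_cases hna : n ≡ a [MOD q]
  · have e : (n : ZMod q) = a := (ZMod.natCast_eq_natCast_iff n a q).2 hna
    have hc : Nat.Coprime n q := by rw [← ZMod.isUnit_iff_coprime, e]; exact hau
    rw [if_pos hna, if_pos e, if_pos hc, if_pos hc, if_pos (e ▸ hau)]
    push_cast; field_simp
  · have e : ¬ (n : ZMod q) = a := fun h => hna ((ZMod.natCast_eq_natCast_iff n a q).1 h)
    rw [if_neg hna, if_neg e]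
    split_ifs <;> simp

lemma inv_le_dZ_div {p : ℕ} (hp : 0 < p) {m : ℤ} (h : ¬ (p : ℤ) ∣ m) :
    1 / (p : ℝ) ≤ dZ ((m : ℝ) / p) := by
  have hp0 : (0 : ℝ) < p := by exact_mod_cast hp
  unfold dZ
  set r := round ((m : ℝ) / p)
  have e : (m : ℝ) / p - r = ((m - p * r : ℤ) : ℝ) / p := by push_cast; field_simp
  rw [e, abs_div, abs_of_pos hp0]
  have hnz : m - p * r ≠ 0 := fun h0 => h ⟨r, by linarith⟩
  have h1 : (1 : ℝ) ≤ |((m - p * r : ℤ) : ℝ)| := by
    rw [← Int.cast_abs]; exact_mod_cast Int.one_le_abs hnz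
  gcongr

/-- Fourier coefficients of the truncation -/
noncomputable def cutCoef (K h : ℕ) : ℂ :=
  (1 / ((2 * K : ℕ) : ℂ)) * ∑ t ∈ range K, (starRingEnd ℂ) (ee (h * ((t : ℝ) / (2 * K : ℕ))))

lemma cut_eq {K n g : ℕ} (hn : n < K) (hg : g < K) :
    (if n ≤ g then (1 : ℂ) else 0) = ∑ h ∈ range (2 * K), cutCoef K h *
      (ee (h * ((g : ℝ) / (2 * K : ℕ))) * (starRingEnd ℂ) (ee (h * ((n : ℝ) / (2 * K : ℕ))))) := by
  have hK : 0 < 2 * K := by omega
  have hK' : ((2 * K : ℕ) : ℂ) ≠ 0 := by exact_mod_cast hK.ne'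
  have h1 : ∀ t ∈ range K, ∑ h ∈ range (2 * K), (starRingEnd ℂ) (ee (h * ((t : ℝ) / (2 * K : ℕ)))) *
      (ee (h * ((g : ℝ) / (2 * K : ℕ))) * (starRingEnd ℂ) (ee (h * ((n : ℝ) / (2 * K : ℕ)))))
      = if g = n + t then ((2 * K : ℕ) : ℂ) else 0 := by
    intro t ht
    rw [mem_range] at ht
    have := sum_ee_orth (2 * K) hK (r := g) (r' := n + t) (by omega) (by omega)
    rw [Complex.ofReal_natCast] at this
    rw [← this]
    refine sum_congr rfl fun h _ => ?_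
    rw [Nat.cast_add, add_div, mul_add, ee_add, map_mul]; ring
  unfold cutCoef
  simp_rw [mul_assoc, ← mul_sum, sum_mul]
  rw [sum_comm, sum_congr rfl h1]
  split_ifs with h
  · rw [sum_eq_single (g - n)]
    · rw [if_pos (by omega)]; field_simp
    · intro b _ hb; rw [if_neg (by omega)]
    · intro hb; exact absurd (mem_range.2 (by omega)) hb
  · rw [sum_eq_zero, mul_zero]
    intro t _; rw [if_neg (by omega)]

lemma sum_norm_cutCoef_le {K : ℕ} (hK : 0 < K) :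
    ∑ h ∈ range (2 * K), ‖cutCoef K h‖ ≤ 1 + HH (2 * K) := by
  have hK2 : 0 < 2 * K := by omega
  have hp0 : (0 : ℝ) < (2 * K : ℕ) := by exact_mod_cast hK2
  have e : ∀ h : ℕ, ‖cutCoef K h‖
      = 1 / ((2 * K : ℕ) : ℝ) * ‖∑ t ∈ range K, ee (t * ((h : ℝ) / (2 * K : ℕ)))‖ := fun h => by
    unfold cutCoef
    rw [norm_mul, ← map_sum, Complex.norm_conj, norm_div, norm_one, Complex.norm_natCast]
    congr 2
    refine sum_congr rfl fun t _ => ?_
    congr 1; ring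
  simp_rw [e]
  rw [← mul_sum, ← add_sum_erase _ _ (mem_range.2 hK2), one_div, inv_mul_le_iff₀ hp0, mul_add,
    mul_one]
  have hd : ∀ h ∈ (range (2 * K)).erase 0, 1 / ((2 * K : ℕ) : ℝ) ≤ dZ ((h : ℝ) / (2 * K : ℕ)) := by
    intro h hh
    rw [mem_erase, mem_range] at hh
    have := inv_le_dZ_div hK2 (m := h) (by
      intro hd
      have := Nat.le_of_dvd (Nat.pos_of_ne_zero hh.1) (Int.natCast_dvd_natCast.1 hd)
      omega)
    simpa using this
  apply add_le_add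
  · refine (norm_sum_ee_le_card _ _).trans ?_
    exact_mod_cast (by omega : K ≤ 2 * K)
  · refine le_trans ?_ (sum_inv_dZ_le ((range (2 * K)).erase 0)
      (fun h => (h : ℝ) / (2 * K : ℕ)) (2 * K) hK2 hd ?_)
    · exact sum_le_sum fun h hh => norm_sum_ee_le _ _ (lt_of_lt_of_le (by positivity) (hd h hh))
    · intro j hj k hk hjk
      rw [mem_erase, mem_range] at hj hk
      have := inv_le_dZ_div hK2 (m := (j : ℤ) - k) (by
        intro hd
        have h1 := Int.eq_zero_of_abs_lt_dvd hd (by rw [abs_lt]; constructor <;> omega)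
        omega)
      rw [← sub_div]
      simpa using this

open Classical in
/-- Type II estimate -/
theorem typeII_le {ι : Type*} (I : Finset ι) (q a : ι → ℕ) (hinj : Set.InjOn q I) (w E : ℕ)
    (hw : 2 ≤ w) (hq0 : ∀ i ∈ I, 0 < q i) (hq1 : ∀ i ∈ I, q i < w ^ E)
    (hq2 : ∀ i ∈ I, q i ≤ 2 * (q i).totient) (hq3 : ∀ i ∈ I, ∀ f, f ∣ q i → 1 < f → w ^ 2 ≤ f)
    (ha : ∀ i ∈ I, Nat.Coprime (a i) (q i))
    (M N : ℕ) (hN : 0 < N) (α β : ℕ → ℝ) (g : ℕ → ℕ) (hg : ∀ m, g m < N) (B : ℝ) (hB : 0 ≤ B)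
    (h : ∀ j ∈ Ico 2 E, ((M + (w : ℝ) ^ (2 * j + 2) * HH (w ^ (2 * E))) * ∑ m ∈ range M, α m ^ 2) *
      ((N + (w : ℝ) ^ (2 * j + 2) * HH (w ^ (2 * E))) * ∑ n ∈ range N, β n ^ 2)
        ≤ ((w : ℝ) ^ j * B) ^ 2) :
    ∑ i ∈ I, |∑ m ∈ range M, ∑ n ∈ range N,
        if n ≤ g m then α m * β n * kap (q i) (a i) (m * n) else 0|
      ≤ (1 + HH (2 * N)) * (2 * HH (w ^ E) * (E * B)) := by
  set A : ℕ → ℕ → ℂ := fun h m => α m * ee (h * ((g m : ℝ) / (2 * N : ℕ))) with hA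
  set Bt : ℕ → ℕ → ℂ := fun h n => β n * (starRingEnd ℂ) (ee (h * ((n : ℝ) / (2 * N : ℕ)))) with hBt
  have s1 : ∀ i ∈ I, |∑ m ∈ range M, ∑ n ∈ range N,
        if n ≤ g m then α m * β n * kap (q i) (a i) (m * n) else 0|
      ≤ ∑ h ∈ range (2 * N), ‖cutCoef N h‖ * ((1 / ((q i).totient : ℝ)) *
        ∑ χ : DirichletCharacter ℂ (q i) with χ ≠ 1,
          ‖∑ m ∈ range M, A h m * χ m‖ * ‖∑ n ∈ range N, Bt h n * χ n‖) := by
    intro i hi
    have e : ((∑ m ∈ range M, ∑ n ∈ range N,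
        if n ≤ g m then α m * β n * kap (q i) (a i) (m * n) else 0 : ℝ) : ℂ)
        = ∑ h ∈ range (2 * N), cutCoef N h * ((1 / ((q i).totient : ℂ)) *
        ∑ χ : DirichletCharacter ℂ (q i) with χ ≠ 1, (starRingEnd ℂ) (χ (a i)) *
          ((∑ m ∈ range M, A h m * χ m) * (∑ n ∈ range N, Bt h n * χ n))) := by
      have e1 : ∀ m ∈ range M, ∀ n ∈ range N,
          ((if n ≤ g m then α m * β n * kap (q i) (a i) (m * n) else 0 : ℝ) : ℂ)
          = ∑ h ∈ range (2 * N), ∑ χ : DirichletCharacter ℂ (q i) with χ ≠ 1,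
            cutCoef N h * ((1 / ((q i).totient : ℂ)) * ((starRingEnd ℂ) (χ (a i)) *
              ((A h m * χ m) * (Bt h n * χ n)))) := by
        intro m _ n hn
        calc _ = (if n ≤ g m then (1 : ℂ) else 0) * (α m * β n * (kap (q i) (a i) (m * n) : ℂ)) := by
              split_ifs <;> simp
          _ = _ := by
              rw [cut_eq (mem_range.1 hn) (hg m), kap_eq (hq0 i hi) (ha i hi), sum_mul]
              refine sum_congr rfl fun h _ => ?_
              rw [mul_sum, mul_sum, mul_sum]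
              refine sum_congr rfl fun χ _ => ?_
              simp only [hA, hBt]
              rw [Nat.cast_mul m n, map_mul]; ring
      rw [Complex.ofReal_sum]
      simp_rw [Complex.ofReal_sum]
      rw [sum_congr rfl fun m hm => sum_congr rfl fun n hn => e1 m hm n hn]
      simp_rw [sum_mul_sum, mul_sum]
      rw [sum_congr rfl fun m _ => sum_comm, sum_comm]
      refine sum_congr rfl fun h _ => ?_
      rw [sum_congr rfl fun m _ => sum_comm, sum_comm]
    rw [← Real.norm_eq_abs, ← Complex.norm_real, e]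
    refine (norm_sum_le _ _).trans (sum_le_sum fun h _ => ?_)
    rw [norm_mul, norm_mul, norm_div, norm_one, Complex.norm_natCast]
    refine mul_le_mul_of_nonneg_left (mul_le_mul_of_nonneg_left ?_ (by positivity)) (norm_nonneg _)
    refine (norm_sum_le _ _).trans (sum_le_sum fun χ _ => ?_)
    rw [norm_mul, norm_mul, Complex.norm_conj]
    exact mul_le_of_le_one_left (by positivity) (χ.norm_le_one _)
  refine (sum_le_sum s1).trans ?_
  rw [sum_comm]
  simp_rw [← mul_sum]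
  have hH := HH_nonneg (w ^ E)
  calc _ ≤ ∑ h ∈ range (2 * N), ‖cutCoef N h‖ * (2 * HH (w ^ E) * (E * B)) := by
        refine sum_le_sum fun r _ => mul_le_mul_of_nonneg_left ?_ (norm_nonneg _)
        refine bilinear_le I q hinj w E hw hq0 hq1 hq2 hq3 M N (A r) (Bt r) B hB fun j hj => ?_
        simpa [hA, hBt] using h j hj
    _ ≤ _ := by
        rw [← sum_mul]
        exact mul_le_mul_of_nonneg_right (sum_norm_cutCoef_le hN) (by positivity)

end Pool.Agent.Lib.LargeSieve
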