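import Pool.Agent.Lib.LargeSieve.Arith

/-!
Two-dimensional upper bound sieve for `s` and `A s + 1`, with `s` in a progression.
-/

set_option autoImplicit false

namespace Pool.Agent.Lib.LargeSieve

open Finset Real

lemma sum_le_of_section {α β : Type*} (s : Finset α) (t : Finset β) (f : α → ℝ) (F : β → ℝ)
    (pr : β → α) (hF : ∀ x ∈ t, 0 ≤ F x) (h : ∀ m ∈ s, ∃ x ∈ t, pr x = m ∧ f m ≤ F x) :
    ∑ m ∈ s, f m ≤ ∑ x ∈ t, F x := by
  classical
  calc ∑ m ∈ s, f m ≤ ∑ m ∈ s, ∑ x ∈ t with pr x = m, F x := by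
        refine sum_le_sum fun m hm => ?_
        obtain ⟨x, hx, hxm, hle⟩ := h m hm
        exact hle.trans (single_le_sum (f := F) (fun y hy => hF y (mem_filter.1 hy).1)
          (mem_filter.2 ⟨hx, hxm⟩))
    _ ≤ _ := sum_fiberwise_le_sum_of_sum_fiber_nonneg fun y _ =>
        sum_nonneg fun x hx => hF x (mem_filter.1 hx).1

lemma sum_inv_sq_le_two (z : ℕ) : ∑ e ∈ Icc 1 z, (1 : ℝ) / (e : ℝ) ^ 2 ≤ 2 := by
  have : ∀ n : ℕ, ∑ e ∈ Icc 1 (n + 1), (1 : ℝ) / (e : ℝ) ^ 2 ≤ 2 - 1 / ((n : ℝ) + 1) := by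
    intro n
    induction n with
    | zero => norm_num
    | succ n ih =>
      rw [sum_Icc_succ_top (by omega)]
      have h1 : (1 : ℝ) / ((n + 1 + 1 : ℕ) : ℝ) ^ 2 ≤ 1 / ((n : ℝ) + 1) - 1 / (((n + 1 : ℕ) : ℝ) + 1) := by
        push_cast
        rw [div_sub_div _ _ (by positivity) (by positivity), div_le_div_iff₀ (by positivity) (by positivity)]
        nlinarith [(Nat.cast_nonneg n : (0 : ℝ) ≤ n)]
      linarith
  rcases z with _ | n
  · simp
  · have h := this n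
    have : (0 : ℝ) ≤ 1 / ((n : ℝ) + 1) := by positivity
    linarith

/-- `∑_{d ∣ B} 1/d` -/
noncomputable def sigInv (B : ℕ) : ℝ := ∑ d ∈ B.divisors, (1 : ℝ) / d

lemma sigInv_nonneg (B : ℕ) : 0 ≤ sigInv B := sum_nonneg fun _ _ => by positivity

lemma sigInv_mul_le (a b : ℕ) : sigInv (a * b) ≤ sigInv a * sigInv b := by
  unfold sigInv
  rw [sum_mul_sum, ← sum_product']
  refine sum_le_of_section _ _ _ _ (fun x : ℕ × ℕ => x.1 * x.2) (fun _ _ => by positivity) ?_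
  intro m hm
  rw [Nat.mem_divisors] at hm
  obtain ⟨d1, d2, h1, h2, rfl⟩ := exists_dvd_and_dvd_of_dvd_mul hm.1
  refine ⟨(d1, d2), ?_, rfl, ?_⟩
  · simp only [mem_product, Nat.mem_divisors]
    exact ⟨⟨h1, left_ne_zero_of_mul hm.2⟩, h2, right_ne_zero_of_mul hm.2⟩
  · push_cast; rw [one_div_mul_one_div]

lemma sigInv_prime {p : ℕ} (hp : p.Prime) : sigInv p = 1 + 1 / p := by
  unfold sigInv
  rw [hp.divisors, sum_pair hp.one_lt.ne]; simp

lemma sigInv_one : sigInv 1 = 1 := by simp [sigInv]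

lemma sigInv_prod_le (s : Finset ℕ) (hs : ∀ p ∈ s, p.Prime) (y : ℝ) (hy : 0 < y)
    (hs' : ∀ p ∈ s, y ≤ p) : sigInv (∏ p ∈ s, p) ≤ (1 + 1 / y) ^ s.card := by
  induction s using Finset.induction_on with
  | empty => simp [sigInv_one]
  | insert p s hps ih =>
    rw [prod_insert hps, card_insert_of_notMem hps, pow_succ']
    refine (sigInv_mul_le _ _).trans (mul_le_mul ?_ (ih (fun q hq => hs q (mem_insert_of_mem hq))
      (fun q hq => hs' q (mem_insert_of_mem hq))) (sigInv_nonneg _) (by positivity))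
    rw [sigInv_prime (hs p (mem_insert_self _ _))]
    have := one_div_le_one_div_of_le hy (hs' p (mem_insert_self _ _))
    linarith

lemma sum_sigInv_div_le (Z : ℕ) : ∑ a ∈ Icc 1 Z, sigInv a / a ≤ 2 * HH Z := by
  have h1 : ∑ a ∈ Icc 1 Z, sigInv a / a
      = ∑ x ∈ (Icc 1 Z).sigma (fun a => a.divisors), (1 : ℝ) / x.2 / x.1 := by
    rw [sum_sigma]
    refine sum_congr rfl fun a _ => ?_
    unfold sigInv
    rw [sum_div]
  have h2 : ∑ x ∈ (Icc 1 Z).sigma (fun a => a.divisors), (1 : ℝ) / x.2 / x.1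
      ≤ ∑ x ∈ Icc 1 Z ×ˢ Icc 1 Z, (1 : ℝ) / (x.1 : ℝ) ^ 2 * (1 / x.2) := by
    refine sum_le_of_section _ _ _ _ (fun x : ℕ × ℕ => (⟨x.1 * x.2, x.1⟩ : Σ _ : ℕ, ℕ))
      (fun _ _ => by positivity) ?_
    rintro ⟨a, d⟩ hm
    simp only [mem_sigma, mem_Icc, Nat.mem_divisors] at hm
    obtain ⟨⟨ha1, ha2⟩, ⟨e, rfl⟩, -⟩ := hm
    have hd : 0 < d := Nat.pos_of_mul_pos_right ha1
    have he : 0 < e := Nat.pos_of_mul_pos_left ha1
    refine ⟨(d, e), ?_, rfl, le_of_eq ?_⟩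
    · simp only [mem_product, mem_Icc]
      exact ⟨⟨hd, (Nat.le_mul_of_pos_right _ he).trans ha2⟩, he,
        (Nat.le_mul_of_pos_left _ hd).trans ha2⟩
    · push_cast; field_simp
  rw [h1]
  refine h2.trans ?_
  rw [sum_product' (f := fun (d e : ℕ) => (1 : ℝ) / (d : ℝ) ^ 2 * (1 / e)), ← sum_mul_sum]
  exact mul_le_mul_of_nonneg_right (sum_inv_sq_le_two Z) (HH_nonneg Z)

/-- squarefree integers in `[1,z]` coprime to `B` -/
def sqfCop (z B : ℕ) : Finset ℕ := (Icc 1 z).filter fun b => Squarefree b ∧ Nat.Coprime b B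

lemma HH_le_sqfCop (z B : ℕ) (hB : 0 < B) :
    HH z ≤ 2 * sigInv B * ∑ b ∈ sqfCop z B, (1 : ℝ) / b := by
  have h1 : HH z ≤ ∑ x ∈ Icc 1 z ×ˢ (B.divisors ×ˢ sqfCop z B),
      (1 : ℝ) / (x.1 : ℝ) ^ 2 * (1 / x.2.1 * (1 / x.2.2)) := by
    unfold HH
    refine sum_le_of_section _ _ _ _ (fun x : ℕ × ℕ × ℕ => x.1 ^ 2 * (x.2.1 * x.2.2))
      (fun _ _ => by positivity) ?_
    intro m hm
    rw [mem_Icc] at hm
    obtain ⟨b0, e, hme, hb0⟩ := Nat.sq_mul_squarefree m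
    have hb0pos : 0 < b0 := Nat.pos_of_ne_zero hb0.ne_zero
    have hepos : 0 < e := by
      rcases Nat.eq_zero_or_pos e with rfl | h
      · simp at hme; omega
      · exact h
    obtain ⟨b, hb⟩ : Nat.gcd b0 B ∣ b0 := Nat.gcd_dvd_left _ _
    have hbpos : 0 < b := by
      rcases Nat.eq_zero_or_pos b with rfl | h
      · simp at hb; omega
      · exact h
    have hgpos : 0 < Nat.gcd b0 B := Nat.gcd_pos_of_pos_left _ hb0pos
    refine ⟨(e, Nat.gcd b0 B, b), ?_, ?_, le_of_eq ?_⟩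
    · simp only [mem_product, mem_Icc, Nat.mem_divisors, sqfCop, mem_filter]
      refine ⟨⟨hepos, ?_⟩, ⟨Nat.gcd_dvd_right _ _, hB.ne'⟩, ⟨hbpos, ?_⟩, ?_, ?_⟩
      · calc e ≤ e ^ 2 := Nat.le_self_pow (by norm_num) e
          _ ≤ e ^ 2 * b0 := Nat.le_mul_of_pos_right _ hb0pos
          _ ≤ z := hme ▸ hm.2
      · calc b ≤ b0 := by rw [hb]; exact Nat.le_mul_of_pos_left _ hgpos
          _ ≤ e ^ 2 * b0 := Nat.le_mul_of_pos_left _ (by positivity)
          _ ≤ z := hme ▸ hm.2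
      · exact hb0.squarefree_of_dvd (Dvd.intro_left _ hb.symm)
      · have hcop : Nat.Coprime (Nat.gcd b0 B) b := by
          rw [hb] at hb0
          exact Nat.coprime_of_squarefree_mul hb0
        apply Nat.Coprime.symm
        apply Nat.coprime_of_dvd
        intro k hk hkB hkb
        have : k ∣ Nat.gcd b0 B := Nat.dvd_gcd (hkb.trans (Dvd.intro_left _ hb.symm)) hkB
        exact hk.one_lt.ne' (Nat.eq_one_of_dvd_coprimes hcop this hkb)
    · simp only; rw [← hb, hme]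
    · simp only
      rw [← hme]
      conv_lhs => rw [hb]
      push_cast
      field_simp
  refine h1.trans ?_
  rw [sum_product' (f := fun (e : ℕ) (y : ℕ × ℕ) => (1 : ℝ) / (e : ℝ) ^ 2 * (1 / y.1 * (1 / y.2))),
    ← sum_mul_sum, sum_product' (f := fun (d b : ℕ) => (1 : ℝ) / d * (1 / b)), ← sum_mul_sum,
    mul_assoc]
  exact mul_le_mul_of_nonneg_right (sum_inv_sq_le_two z)
    (mul_nonneg (sigInv_nonneg B) (sum_nonneg fun _ _ => by positivity))

lemma sqfCop_mul_le (z B₁ B₂ : ℕ) :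
    (∑ b ∈ sqfCop z B₁, (1 : ℝ) / b) * (∑ b ∈ sqfCop z B₂, (1 : ℝ) / b)
      ≤ 2 * ∑ x ∈ (sqfCop z B₁ ×ˢ sqfCop z B₂).filter (fun x => Nat.Coprime x.1 x.2),
          (1 : ℝ) / (x.1 * x.2 : ℕ) := by
  rw [sum_mul_sum, ← sum_product']
  have h1 : ∑ x ∈ sqfCop z B₁ ×ˢ sqfCop z B₂, (1 : ℝ) / x.1 * (1 / x.2)
      ≤ ∑ y ∈ Icc 1 z ×ˢ (sqfCop z B₁ ×ˢ sqfCop z B₂).filter (fun x => Nat.Coprime x.1 x.2),
          (1 : ℝ) / (y.1 : ℝ) ^ 2 * (1 / (y.2.1 * y.2.2 : ℕ)) := by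
    refine sum_le_of_section _ _ _ _ (fun y : ℕ × ℕ × ℕ => (y.1 * y.2.1, y.1 * y.2.2))
      (fun _ _ => by positivity) ?_
    rintro ⟨b1, b2⟩ hm
    simp only [mem_product, sqfCop, mem_filter, mem_Icc] at hm
    obtain ⟨⟨⟨h11, h12⟩, h13, h14⟩, ⟨h21, h22⟩, h23, h24⟩ := hm
    have hg : 0 < Nat.gcd b1 b2 := Nat.gcd_pos_of_pos_left _ h11
    obtain ⟨d1, d2, hcop, e1, e2⟩ := Nat.exists_coprime b1 b2
    set g := Nat.gcd b1 b2
    have hd1 : 0 < d1 := Nat.pos_of_mul_pos_right (e1 ▸ h11)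
    have hd2 : 0 < d2 := Nat.pos_of_mul_pos_right (e2 ▸ h21)
    refine ⟨(g, d1, d2), ?_, ?_, le_of_eq ?_⟩
    · simp only [mem_product, sqfCop, mem_filter, mem_Icc]
      have v1 : d1 ∣ b1 := Dvd.intro _ e1.symm
      have v2 : d2 ∣ b2 := Dvd.intro _ e2.symm
      refine ⟨⟨hg, (Nat.gcd_le_left _ h11).trans h12⟩, ⟨⟨⟨hd1, (Nat.le_of_dvd h11 v1).trans h12⟩,
        h13.squarefree_of_dvd v1, h14.coprime_dvd_left v1⟩, ⟨hd2, (Nat.le_of_dvd h21 v2).trans h22⟩,
        h23.squarefree_of_dvd v2, h24.coprime_dvd_left v2⟩, hcop⟩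
    · simp only [Prod.mk.injEq]
      exact ⟨by rw [mul_comm]; exact e1.symm, by rw [mul_comm]; exact e2.symm⟩
    · simp only
      rw [e1, e2]
      push_cast
      have : (g : ℝ) ≠ 0 := by exact_mod_cast hg.ne'
      field_simp
  refine h1.trans ?_
  rw [sum_product' (f := fun (e : ℕ) (y : ℕ × ℕ) => (1 : ℝ) / (e : ℝ) ^ 2 * (1 / (y.1 * y.2 : ℕ))),
    ← sum_mul_sum]
  exact mul_le_mul_of_nonneg_right (sum_inv_sq_le_two z) (sum_nonneg fun _ _ => by positivity)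

lemma pairs_le_L (z B₁ B₂ : ℕ) (g : ℕ → ℝ)
    (hg : ∀ p, p.Prime → p ≤ z ^ 2 →
      ((if p ∣ B₁ then 0 else 1) + (if p ∣ B₂ then 0 else 1) : ℝ) / p ≤ g p) :
    ∑ x ∈ (sqfCop z B₁ ×ˢ sqfCop z B₂).filter (fun x => Nat.Coprime x.1 x.2),
          (1 : ℝ) / (x.1 * x.2 : ℕ)
      ≤ ∑ d ∈ (Icc 1 (z ^ 2)).filter Squarefree, ∏ p ∈ d.primeFactors, g p := by
  set X : ℕ → ℝ := fun p => if p ∣ B₁ then 0 else 1 with hX
  set Y : ℕ → ℝ := fun p => if p ∣ B₂ then 0 else 1 with hY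
  have hX0 : ∀ p, 0 ≤ X p := fun p => by simp only [hX]; split_ifs <;> norm_num
  have hY0 : ∀ p, 0 ≤ Y p := fun p => by simp only [hY]; split_ifs <;> norm_num
  have h1 : ∑ x ∈ (sqfCop z B₁ ×ˢ sqfCop z B₂).filter (fun x => Nat.Coprime x.1 x.2),
          (1 : ℝ) / (x.1 * x.2 : ℕ)
      ≤ ∑ y ∈ ((Icc 1 (z ^ 2)).filter Squarefree).sigma (fun d => d.primeFactors.powerset),
          ((∏ p ∈ y.2, X p) * ∏ p ∈ y.1.primeFactors \ y.2, Y p) / y.1 := by
    refine sum_le_of_section _ _ _ _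
      (fun y : (Σ _ : ℕ, Finset ℕ) => (∏ p ∈ y.2, p, y.1 / ∏ p ∈ y.2, p))
      (fun _ _ => div_nonneg (mul_nonneg (prod_nonneg fun _ _ => hX0 _)
        (prod_nonneg fun _ _ => hY0 _)) (by positivity)) ?_
    rintro ⟨d1, d2⟩ hm
    simp only [mem_product, sqfCop, mem_filter, mem_Icc] at hm
    obtain ⟨⟨⟨⟨h11, h12⟩, h13, h14⟩, ⟨h21, h22⟩, h23, h24⟩, hcop⟩ := hm
    refine ⟨⟨d1 * d2, d1.primeFactors⟩, ?_, ?_, le_of_eq ?_⟩
    · simp only [mem_sigma, mem_filter, mem_Icc, mem_powerset]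
      refine ⟨⟨⟨Nat.mul_pos h11 h21, ?_⟩, (Nat.squarefree_mul hcop).2 ⟨h13, h23⟩⟩, ?_⟩
      · rw [sq]; exact Nat.mul_le_mul h12 h22
      · exact Nat.primeFactors_mono (Dvd.intro _ rfl) (Nat.mul_pos h11 h21).ne'
    · simp only [Nat.prod_primeFactors_of_squarefree h13, Prod.mk.injEq, true_and]
      exact Nat.mul_div_cancel_left _ h11
    · simp only
      congr 1
      rw [prod_eq_one, prod_eq_one, mul_one]
      · intro p hp
        rw [mem_sdiff, hcop.primeFactors_mul, mem_union] at hp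
        have hp2 : p ∈ d2.primeFactors := by tauto
        simp only [hY]
        rw [if_neg]
        intro hpB
        exact (Nat.prime_of_mem_primeFactors hp2).one_lt.ne'
          (Nat.eq_one_of_dvd_coprimes h24 (Nat.dvd_of_mem_primeFactors hp2) hpB)
      · intro p hp
        simp only [hX]
        rw [if_neg]
        intro hpB
        exact (Nat.prime_of_mem_primeFactors hp).one_lt.ne'
          (Nat.eq_one_of_dvd_coprimes h14 (Nat.dvd_of_mem_primeFactors hp) hpB)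
  refine h1.trans ?_
  rw [sum_sigma]
  refine sum_le_sum fun d hd => ?_
  rw [mem_filter, mem_Icc] at hd
  simp only
  rw [← sum_div, ← prod_add]
  conv_lhs => rw [← Nat.prod_primeFactors_of_squarefree hd.2]
  rw [Nat.primeFactors_prod (fun p hp => Nat.prime_of_mem_primeFactors hp), Nat.cast_prod,
    ← prod_div_distrib]
  refine prod_le_prod (fun p _ => div_nonneg (add_nonneg (hX0 p) (hY0 p)) (by positivity))
    fun p hp => hg p (Nat.prime_of_mem_primeFactors hp)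
      ((Nat.le_of_mem_primeFactors hp).trans hd.1.2)

lemma exists_root {p α β : ℕ} (hp : p.Prime) (h : ¬ p ∣ α) : ∃ r < p, p ∣ α * r + β := by
  have : Fact p.Prime := ⟨hp⟩
  have hα : (α : ZMod p) ≠ 0 := by rwa [Ne, ZMod.natCast_eq_zero_iff]
  refine ⟨(-(β : ZMod p) / α).val, ZMod.val_lt _, ?_⟩
  rw [← ZMod.natCast_eq_zero_iff]
  push_cast
  rw [ZMod.natCast_zmod_val]
  field_simp
  ring

theorem twoForms (l c A N z : ℕ) (hl : 0 < l) (hA : 0 < A) (Z : Finset ℕ) (hZN : Z ⊆ range N)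
    (hZ : ∀ t ∈ Z, ∀ p, p.Prime → p ≤ z ^ 2 → ¬ p ∣ l * t + c ∧ ¬ p ∣ A * (l * t + c) + 1) :
    (Z.card : ℝ) * HH z ^ 2
      ≤ 8 * sigInv l * sigInv (A * l) * (N + ((z ^ 2) ^ 2 : ℕ) * HH ((z ^ 2) ^ 2)) := by
  have hR : (0 : ℝ) ≤ N + ((z ^ 2) ^ 2 : ℕ) * HH ((z ^ 2) ^ 2) := by
    have := HH_nonneg ((z ^ 2) ^ 2); positivity
  have s1 := sigInv_nonneg l
  have s2 := sigInv_nonneg (A * l)
  rcases Z.eq_empty_or_nonempty with rfl | ⟨t0, ht0⟩
  · simp only [card_empty, Nat.cast_zero, zero_mul]; positivity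
  set Ω : ℕ → Finset ℕ := fun p =>
    (range p).filter fun r => p ∣ l * r + c ∨ p ∣ A * (l * r + c) + 1 with hΩ
  have hav : ∀ p, p.Prime → p ≤ z ^ 2 → ∀ n ∈ Z, n % p ∉ Ω p := by
    intro p hp hpz n hn hmem
    have hm : l * (n % p) + c ≡ l * n + c [MOD p] :=
      ((Nat.mod_modEq n p).mul_left l).add_right c
    have hm2 : A * (l * (n % p) + c) + 1 ≡ A * (l * n + c) + 1 [MOD p] :=
      (hm.mul_left A).add_right 1
    rcases (mem_filter.1 hmem).2 with h | h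
    · exact (hZ n hn p hp hpz).1 ((hm.dvd_iff dvd_rfl).1 h)
    · exact (hZ n hn p hp hpz).2 ((hm2.dvd_iff dvd_rfl).1 h)
  have hc : ∀ p, p.Prime → p ≤ z ^ 2 → (Ω p).card < p := by
    intro p hp hpz
    have : Ω p ⊂ range p := by
      refine ⟨filter_subset _ _, fun h => ?_⟩
      exact hav p hp hpz t0 ht0 (h (mem_range.2 (Nat.mod_lt _ hp.pos)))
    simpa using card_lt_card this
  have h1 := largeSieve_arith Z N (z ^ 2) hZN Ω (fun p _ _ => filter_subset _ _) hc hav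
  have h2 := pairs_le_L z l (A * l) (fun p => ((Ω p).card : ℝ) / (p - (Ω p).card)) (by
    intro p hp hpz
    have hp0 : (0 : ℝ) < p := by exact_mod_cast hp.pos
    have hlt : ((Ω p).card : ℝ) < p := by exact_mod_cast hc p hp hpz
    have hw : ((if p ∣ l then 0 else 1) + (if p ∣ A * l then 0 else 1) : ℝ) ≤ (Ω p).card := by
      by_cases h1 : p ∣ l
      · rw [if_pos h1, if_pos (h1.mul_left A)]; simp
      · obtain ⟨r1, hr1, hr1'⟩ := exists_root (β := c) hp h1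
        have m1 : r1 ∈ Ω p := mem_filter.2 ⟨mem_range.2 hr1, Or.inl hr1'⟩
        by_cases h2 : p ∣ A * l
        · rw [if_neg h1, if_pos h2, add_zero]
          exact_mod_cast card_pos.2 ⟨r1, m1⟩
        · obtain ⟨r2, hr2, hr2'⟩ := exists_root (β := A * c + 1) hp h2
          have hr2'' : p ∣ A * (l * r2 + c) + 1 := by
            convert hr2' using 1; ring
          have m2 : r2 ∈ Ω p := mem_filter.2 ⟨mem_range.2 hr2, Or.inr hr2''⟩
          have hne : r1 ≠ r2 := by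
            rintro rfl
            exact hp.one_lt.ne' (Nat.dvd_one.1 ((Nat.dvd_add_right (hr1'.mul_left A)).1 hr2''))
          rw [if_neg h1, if_neg h2]
          have : 1 < (Ω p).card := one_lt_card.2 ⟨r1, m1, r2, m2, hne⟩
          have : (2 : ℝ) ≤ (Ω p).card := by exact_mod_cast this
          linarith
    calc _ ≤ ((Ω p).card : ℝ) / p := by gcongr
      _ ≤ _ := by
        apply div_le_div_of_nonneg_left (by positivity) (by linarith)
        have : (0 : ℝ) ≤ (Ω p).card := by positivity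
        linarith)
  have h3 := sqfCop_mul_le z l (A * l)
  have h4 := HH_le_sqfCop z l hl
  have h5 := HH_le_sqfCop z (A * l) (Nat.mul_pos hA hl)
  set L := ∑ d ∈ (Icc 1 (z ^ 2)).filter Squarefree,
    ∏ p ∈ d.primeFactors, ((Ω p).card : ℝ) / (p - (Ω p).card)
  set S1 := ∑ b ∈ sqfCop z l, (1 : ℝ) / b
  set S2 := ∑ b ∈ sqfCop z (A * l), (1 : ℝ) / b
  have hS1 : 0 ≤ S1 := sum_nonneg fun _ _ => by positivity
  have h6 : HH z ^ 2 ≤ 8 * sigInv l * sigInv (A * l) * L := by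
    calc HH z ^ 2 = HH z * HH z := sq _
      _ ≤ (2 * sigInv l * S1) * (2 * sigInv (A * l) * S2) :=
          mul_le_mul h4 h5 (HH_nonneg z) (by positivity)
      _ = 4 * sigInv l * sigInv (A * l) * (S1 * S2) := by ring
      _ ≤ 4 * sigInv l * sigInv (A * l) * (2 * L) :=
          mul_le_mul_of_nonneg_left (h3.trans (by linarith)) (by positivity)
      _ = _ := by ring
  calc _ ≤ (Z.card : ℝ) * (8 * sigInv l * sigInv (A * l) * L) :=
        mul_le_mul_of_nonneg_left h6 (by positivity)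
    _ = 8 * sigInv l * sigInv (A * l) * (Z.card * L) := by ring
    _ ≤ _ := mul_le_mul_of_nonneg_left h1 (by positivity)

/-- primes `s ∈ (z², Y]` with `A s + 1` prime and `l ∣ A s + 2` -/
theorem card_primes_twoForms (l A Y z : ℕ) (hl : l.Prime) (hl2 : 2 < l) (hA : 0 < A) :
    (((Icc 1 Y).filter fun s => s.Prime ∧ z ^ 2 < s ∧ (A * s + 1).Prime ∧ l ∣ A * s + 2).card : ℝ)
        * HH z ^ 2
      ≤ 8 * sigInv l * sigInv (A * l) * ((Y / l + 1 : ℕ) + ((z ^ 2) ^ 2 : ℕ) * HH ((z ^ 2) ^ 2)) := by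
  set S := (Icc 1 Y).filter fun s => s.Prime ∧ z ^ 2 < s ∧ (A * s + 1).Prime ∧ l ∣ A * s + 2
    with hS
  rcases S.eq_empty_or_nonempty with h | ⟨s0, hs0⟩
  · rw [h]
    have := twoForms l 0 A (Y / l + 1) z hl.pos hA ∅ (empty_subset _) (by simp)
    simpa using this
  have hcop : Nat.Coprime l A := by
    rw [hl.coprime_iff_not_dvd]
    intro h
    have h2 := (mem_filter.1 hs0).2.2.2.2
    have := (Nat.dvd_add_right (h.mul_right s0)).1 h2
    have := Nat.le_of_dvd (by norm_num) this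
    omega
  have hmod : ∀ s ∈ S, s % l = s0 % l := by
    intro s hs
    have h1 := (mem_filter.1 hs).2.2.2.2
    have h2 := (mem_filter.1 hs0).2.2.2.2
    have h3 : A * s + 2 ≡ A * s0 + 2 [MOD l] :=
      ((Nat.modEq_zero_iff_dvd).2 h1).trans ((Nat.modEq_zero_iff_dvd).2 h2).symm
    exact Nat.ModEq.cancel_left_of_coprime hcop (Nat.ModEq.add_right_cancel' 2 h3)
  have hdec : ∀ s ∈ S, l * (s / l) + s0 % l = s := fun s hs => by
    rw [← hmod s hs]; exact Nat.div_add_mod s l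
  have hinj : Set.InjOn (fun s => s / l) S := by
    intro s hs s' hs' h
    simp only at h
    rw [← hdec s hs, ← hdec s' hs', h]
  rw [← card_image_of_injOn hinj]
  refine twoForms l (s0 % l) A (Y / l + 1) z hl.pos hA _ ?_ ?_
  · intro t ht
    obtain ⟨s, hs, rfl⟩ := mem_image.1 ht
    have := (mem_Icc.1 (mem_filter.1 hs).1).2
    exact mem_range.2 (Nat.lt_succ_of_le (Nat.div_le_div_right this))
  · intro t ht p hp hpz
    obtain ⟨s, hs, rfl⟩ := mem_image.1 ht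
    rw [hdec s hs]
    obtain ⟨-, h1, h2, h3, -⟩ := mem_filter.1 hs
    constructor
    · intro h
      have := (Nat.prime_dvd_prime_iff_eq hp h1).1 h
      omega
    · intro h
      have := (Nat.prime_dvd_prime_iff_eq hp h3).1 h
      have : s ≤ A * s := Nat.le_mul_of_pos_left _ hA
      omega

end Pool.Agent.Lib.LargeSieve
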